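import Mathlib
set_option autoImplicit false
open Filter Topology Set

namespace Pool.Agent.LibCell

/-- 1D viscous cell problem for `H(x,p)=p^2-V(x)`. -/
structure IsSol (V : ℝ → ℝ) (ε c : ℝ) (v : ℝ → ℝ) : Prop where
  smooth : ContDiff ℝ 2 v
  per : ∀ x, v (x + 1) = v x
  eqn : ∀ x, (deriv v x) ^ 2 - V x = ε * deriv (deriv v) x + c

lemma exists_max {f : ℝ → ℝ} (hf : Continuous f) (hper : ∀ x, f (x + 1) = f x) :
    ∃ x0, ∀ x, f x ≤ f x0 := by
  obtain ⟨x0, -, hx0⟩ := isCompact_Icc.exists_isMaxOn (nonempty_Icc.mpr (zero_le_one' ℝ))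
    hf.continuousOn
  refine ⟨x0, fun x => ?_⟩
  have hp : Function.Periodic f 1 := hper
  have h1 : f (Int.fract x) = f x := by
    have := hp.sub_int_mul_eq (x := x) ⌊x⌋
    rwa [mul_one, ← Int.fract] at this
  rw [← h1]
  exact hx0 ⟨Int.fract_nonneg x, (Int.fract_lt_one x).le⟩

lemma max_deriv {f : ℝ → ℝ} {x0 : ℝ} (h : ∀ x, f x ≤ f x0) : deriv f x0 = 0 :=
  IsLocalMax.deriv_eq_zero (Filter.Eventually.of_forall h)

lemma max_deriv2 {f : ℝ → ℝ} (hc : Continuous f) {x0 : ℝ} (h : ∀ x, f x ≤ f x0) :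
    deriv (deriv f) x0 ≤ 0 := by
  by_contra hcon
  push Not at hcon
  have hmin := isLocalMin_of_deriv_deriv_pos hcon (max_deriv h) hc.continuousAt
  have heq : f =ᶠ[𝓝 x0] fun _ => f x0 := by
    filter_upwards [hmin] with x hx
    exact le_antisymm (h x) hx
  have h2 : deriv f =ᶠ[𝓝 x0] deriv (fun _ => f x0) := heq.deriv
  have h3 := h2.deriv_eq
  simp at h3
  linarith

section
variable {V : ℝ → ℝ} {ε c : ℝ} {v : ℝ → ℝ}

lemma IsSol.diff (h : IsSol V ε c v) : Differentiable ℝ v := h.smooth.differentiable (by norm_num)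

lemma IsSol.cont (h : IsSol V ε c v) : Continuous v := h.smooth.continuous

lemma IsSol.contDiff_deriv (h : IsSol V ε c v) : ContDiff ℝ 1 (deriv v) := by
  have h2 : ContDiff ℝ (1 + 1) v := by rw [one_add_one_eq_two]; exact h.smooth
  exact (contDiff_succ_iff_deriv.mp h2).2.2

lemma IsSol.diff' (h : IsSol V ε c v) : Differentiable ℝ (deriv v) :=
  h.contDiff_deriv.differentiable (by norm_num)

lemma IsSol.cont' (h : IsSol V ε c v) : Continuous (deriv v) := h.contDiff_deriv.continuous

lemma IsSol.hasDeriv (h : IsSol V ε c v) (x : ℝ) : HasDerivAt v (deriv v x) x :=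
  (h.diff x).hasDerivAt

lemma IsSol.hasDeriv' (h : IsSol V ε c v) (hε : 0 < ε) (x : ℝ) :
    HasDerivAt (deriv v) (((deriv v x) ^ 2 - V x - c) / ε) x := by
  have h1 := (h.diff' x).hasDerivAt
  have h2 := h.eqn x
  have h3 : deriv (deriv v) x = ((deriv v x) ^ 2 - V x - c) / ε := by
    field_simp; linarith
  rwa [h3] at h1

lemma IsSol.per' (h : IsSol V ε c v) (x : ℝ) : deriv v (x + 1) = deriv v x := by
  have : (fun y => v (y + 1)) = v := funext h.per
  conv_rhs => rw [← this]
  rw [deriv_comp_add_const]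

/-- comparison of constants -/
lemma IsSol.compare {V' : ℝ → ℝ} {c' : ℝ} {v' : ℝ → ℝ} (h : IsSol V ε c v)
    (h' : IsSol V' ε c' v') (hε : 0 < ε) {τ : ℝ} (hτ : ∀ x, V x - V' x ≤ τ) : c' - c ≤ τ := by
  obtain ⟨x0, hx0⟩ := exists_max (f := fun x => v x - v' x) (h.cont.sub h'.cont)
    (fun x => by rw [h.per, h'.per])
  have e1 : deriv (fun x => v x - v' x) = fun x => deriv v x - deriv v' x := by
    ext x; exact deriv_fun_sub (h.diff x) (h'.diff x)
  have e2 : deriv (deriv (fun x => v x - v' x)) x0 = deriv (deriv v) x0 - deriv (deriv v') x0 := by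
    rw [e1]; exact deriv_fun_sub (h.diff' x0) (h'.diff' x0)
  have d1 := max_deriv hx0
  rw [e1] at d1
  have d2 := max_deriv2 (f := fun x => v x - v' x) (h.cont.sub h'.cont) hx0
  rw [e2] at d2
  have q1 := h.eqn x0
  have q2 := h'.eqn x0
  have q3 : deriv v x0 = deriv v' x0 := by simpa [sub_eq_zero] using d1
  rw [q3] at q1
  have q4 := hτ x0
  nlinarith

lemma IsSol.c_nonpos (h : IsSol V ε c v) (hε : 0 < ε) (hV : ∀ x, 0 ≤ V x) : c ≤ 0 := by
  obtain ⟨x0, hx0⟩ := exists_max (f := fun x => - v x) (h.cont.neg)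
    (fun x => by rw [h.per])
  have e1 : deriv (fun x => - v x) = fun x => - deriv v x := by
    ext x; exact deriv.fun_neg
  have e2 : deriv (deriv (fun x => - v x)) x0 = - deriv (deriv v) x0 := by
    rw [e1]; exact deriv.fun_neg
  have d1 := max_deriv hx0
  rw [e1] at d1
  have d2 := max_deriv2 (f := fun x => - v x) (h.cont.neg) hx0
  rw [e2] at d2
  have q1 := h.eqn x0
  have q3 : deriv v x0 = 0 := by simpa using d1
  rw [q3] at q1
  have q4 := hV x0
  nlinarith

lemma IsSol.c_lower (h : IsSol V ε c v) (hε : 0 < ε)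
    (hV : ∀ x, V x ≤ 4 * Real.sin (2 * Real.pi * x) ^ 2) : - (4 * Real.pi * ε) ≤ c := by
  set w : ℝ → ℝ := fun x => - (Real.cos (2 * Real.pi * x) / Real.pi) with hw
  have hpi := Real.pi_pos
  have hin : ∀ x : ℝ, HasDerivAt (fun x : ℝ => 2 * Real.pi * x) (2 * Real.pi) x := by
    intro x; simpa using (hasDerivAt_id x).const_mul (2 * Real.pi)
  have w1 : ∀ x, HasDerivAt w (2 * Real.sin (2 * Real.pi * x)) x := by
    intro x
    have h1 := (((Real.hasDerivAt_cos (2 * Real.pi * x)).comp x (hin x)).div_const Real.pi).neg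
    refine h1.congr_deriv ?_
    field_simp
  have w2 : ∀ x, HasDerivAt (fun x => 2 * Real.sin (2 * Real.pi * x))
      (4 * Real.pi * Real.cos (2 * Real.pi * x)) x := by
    intro x
    have h1 := (((Real.hasDerivAt_sin (2 * Real.pi * x)).comp x (hin x)).const_mul 2)
    refine h1.congr_deriv ?_
    ring
  have wc : Continuous w := by
    have : Differentiable ℝ w := fun x => (w1 x).differentiableAt
    exact this.continuous
  have wper : ∀ x, w (x + 1) = w x := by
    intro x
    simp only [hw]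
    rw [mul_add, mul_one, Real.cos_add_two_pi]
  obtain ⟨x0, hx0⟩ := exists_max (f := fun x => v x - w x) (h.cont.sub wc)
    (fun x => by rw [h.per, wper])
  have e1 : deriv (fun x => v x - w x) = fun x => deriv v x - 2 * Real.sin (2 * Real.pi * x) := by
    ext x
    rw [deriv_fun_sub (h.diff x) (w1 x).differentiableAt, (w1 x).deriv]
  have e2 : deriv (deriv (fun x => v x - w x)) x0 =
      deriv (deriv v) x0 - 4 * Real.pi * Real.cos (2 * Real.pi * x0) := by
    rw [e1, deriv_fun_sub (h.diff' x0) (w2 x0).differentiableAt, (w2 x0).deriv]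
  have d1 := max_deriv hx0
  rw [e1] at d1
  have d2 := max_deriv2 (f := fun x => v x - w x) (h.cont.sub wc) hx0
  rw [e2] at d2
  have q1 := h.eqn x0
  have q3 : deriv v x0 = 2 * Real.sin (2 * Real.pi * x0) := by
    have := d1; simp only at this; linarith
  rw [q3] at q1
  have q4 := hV x0
  have q5 := Real.cos_le_one (2 * Real.pi * x0)
  have q6 : ε * deriv (deriv v) x0 ≤ ε * (4 * Real.pi) := by
    apply mul_le_mul_of_nonneg_left _ hε.le
    nlinarith
  nlinarith

lemma IsSol.deriv_le (h : IsSol V ε c v) (hε : 0 < ε) (hV0 : ∀ x, 0 ≤ V x)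
    (hV : ∀ x, V x ≤ 4) (x : ℝ) : |deriv v x| ≤ 2 := by
  have hc := h.c_nonpos hε hV0
  obtain ⟨x0, hx0⟩ := exists_max (f := deriv v) h.cont' h.per'
  obtain ⟨x1, hx1⟩ := exists_max (f := fun x => - deriv v x) h.cont'.neg
    (fun x => by rw [h.per'])
  have d0 : deriv (deriv v) x0 = 0 := max_deriv hx0
  have d1 : deriv (deriv v) x1 = 0 := by
    have := max_deriv hx1
    simpa using this
  have q0 := h.eqn x0
  have q1 := h.eqn x1
  rw [d0] at q0
  rw [d1] at q1
  have b0 := hV x0
  have b1 := hV x1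
  rw [abs_le]
  constructor
  · have := hx1 x
    have h5 : -2 ≤ deriv v x1 := by nlinarith
    linarith
  · have := hx0 x
    have h5 : deriv v x0 ≤ 2 := by nlinarith
    linarith

/-- uniqueness -/
lemma IsSol.unique {c' : ℝ} {v' : ℝ → ℝ} (h : IsSol V ε c v)
    (h' : IsSol V ε c' v') (hε : 0 < ε) (h0 : v 0 = v' 0) : c = c' ∧ v = v' := by
  have hcc : c = c' := by
    have a := h.compare h' hε (τ := 0) (fun x => by simp)
    have b := h'.compare h hε (τ := 0) (fun x => by simp)
    linarith
  subst hcc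
  refine ⟨rfl, ?_⟩
  obtain ⟨x0, hx0⟩ := exists_max (f := fun x => v x - v' x) (h.cont.sub h'.cont)
    (fun x => by rw [h.per, h'.per])
  have e1 : deriv (fun x => v x - v' x) = fun x => deriv v x - deriv v' x := by
    ext x; exact deriv_fun_sub (h.diff x) (h'.diff x)
  have d1 := max_deriv hx0
  rw [e1] at d1
  set N : ℝ → ℝ := fun x => (deriv v x - deriv v' x) * Real.exp (-(v x + v' x) / ε) with hN
  have hNd : ∀ x, HasDerivAt N 0 x := by
    intro x
    have a1 := (h.hasDeriv' hε x).sub (h'.hasDeriv' hε x)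
    have a2 := (((h.hasDeriv x).add (h'.hasDeriv x)).neg.div_const ε).exp
    have a3 := a1.mul a2
    refine a3.congr_deriv ?_
    simp only [Pi.add_apply, Pi.neg_apply, Pi.sub_apply]
    field_simp
    ring
  have hconst : ∀ x, N x = N x0 :=
    fun x => is_const_of_deriv_eq_zero (fun y => (hNd y).differentiableAt)
      (fun y => (hNd y).deriv) x x0
  have hz : ∀ x, deriv v x - deriv v' x = 0 := by
    intro x
    have := hconst x
    simp only [hN] at this
    simp only at d1
    rw [d1, zero_mul] at this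
    exact (mul_eq_zero.mp this).resolve_right (Real.exp_ne_zero _)
  have hconst2 : ∀ x, (fun x => v x - v' x) x = (fun x => v x - v' x) 0 := by
    intro x
    refine is_const_of_deriv_eq_zero (h.diff.sub h'.diff) (fun y => ?_) x 0
    have := congrFun e1 y
    rw [hz y] at this
    exact this
  ext x
  have := hconst2 x
  simp only at this
  linarith

lemma IsSol.even (h : IsSol V ε c v) (hε : 0 < ε) (hV : ∀ x, V (-x) = V x) (x : ℝ) :
    v (-x) = v x := by
  have h2 : IsSol V ε c (fun x => v (-x)) := by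
    have d1 : deriv (fun x => v (-x)) = fun x => - deriv v (-x) := by
      ext x; exact deriv_comp_neg v x
    refine ⟨h.smooth.comp contDiff_neg, fun x => ?_, fun x => ?_⟩
    · have := h.per (-x - 1)
      rw [neg_add, ← sub_eq_add_neg, ← this]; congr 1; ring
    · have d2 : deriv (deriv (fun x => v (-x))) x = deriv (deriv v) (-x) := by
        rw [d1]
        have : deriv (fun x => - deriv v (-x)) x = - deriv (fun x => deriv v (-x)) x :=
          deriv.fun_neg
        rw [this, deriv_comp_neg (deriv v) x, neg_neg]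
      rw [d2, d1]
      have := h.eqn (-x)
      rw [hV] at this
      simpa using this
  have := (h2.unique h hε (by simp)).2
  exact congrFun this x

lemma IsSol.deriv_zero (h : IsSol V ε c v) (hε : 0 < ε) (hV : ∀ x, V (-x) = V x) :
    deriv v 0 = 0 := by
  have e : (fun x => v (-x)) = v := funext (h.even hε hV)
  have := deriv_comp_neg v 0
  rw [e] at this
  simp at this
  linarith

lemma IsSol.deriv_half (h : IsSol V ε c v) (hε : 0 < ε) (hV : ∀ x, V (-x) = V x) :
    deriv v (1/2) = 0 := by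
  have e : (fun x => v (1 - x)) = v := by
    ext x
    have := h.per (-x)
    rw [h.even hε hV x] at this
    rw [← this]; congr 1; ring
  have := deriv_comp_const_sub (f := v) (a := 1) (x := (1/2:ℝ))
  rw [e] at this
  norm_num at this
  norm_num
  linarith

end

end Pool.Agent.LibCell
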