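import Pool.Agent.LibCell.Basic
set_option autoImplicit false
set_option maxHeartbeats 1000000
open Filter Topology Set

namespace Pool.Agent.LibCell

/-- clamp to `[-3,3]` -/
noncomputable def cl (y : ℝ) : ℝ := max (-3) (min 3 y)

lemma cl_abs (y : ℝ) : |cl y| ≤ 3 := by
  unfold cl
  rw [abs_le]
  constructor
  · exact le_max_left _ _
  · exact max_le (by norm_num) (min_le_left _ _)

lemma cl_neg (y : ℝ) : cl (-y) = - cl y := by
  unfold cl
  simp only [max_def, min_def]
  split_ifs <;> linarith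

lemma cl_eq {y : ℝ} (h1 : -3 < y) (h2 : y < 3) : cl y = y := by
  unfold cl
  rw [min_eq_right h2.le, max_eq_right h1.le]

lemma cl_lip (y z : ℝ) : |cl y - cl z| ≤ |y - z| := by
  unfold cl
  rcases abs_cases (y - z) with ⟨h1, h2⟩ | ⟨h1, h2⟩ <;> rw [h1, abs_le] <;>
    simp only [max_def, min_def] <;> split_ifs <;> constructor <;> linarith

lemma cl_sq_lip (y z : ℝ) : |cl y ^ 2 - cl z ^ 2| ≤ 6 * |y - z| := by
  have e : cl y ^ 2 - cl z ^ 2 = (cl y + cl z) * (cl y - cl z) := by ring
  rw [e, abs_mul]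
  have h1 : |cl y + cl z| ≤ 6 := (abs_add_le _ _).trans (by linarith [cl_abs y, cl_abs z])
  exact mul_le_mul h1 (cl_lip y z) (abs_nonneg _) (by norm_num)

lemma cl_cont : Continuous cl := continuous_const.max (continuous_const.min continuous_id)

noncomputable def fld (V : ℝ → ℝ) (ε c : ℝ) (x y : ℝ) : ℝ := ((cl y) ^ 2 - V x - c) / ε

lemma fld_lip (V : ℝ → ℝ) {ε : ℝ} (hε : 0 < ε) (c x : ℝ) :
    LipschitzWith (Real.toNNReal (6 / ε)) (fld V ε c x) := by
  apply LipschitzWith.of_dist_le_mul
  intro y z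
  rw [Real.dist_eq, Real.dist_eq, Real.coe_toNNReal _ (by positivity)]
  unfold fld
  have : (cl y ^ 2 - V x - c) / ε - (cl z ^ 2 - V x - c) / ε = (cl y ^ 2 - cl z ^ 2) / ε := by ring
  rw [this, abs_div, abs_of_pos hε]
  calc |cl y ^ 2 - cl z ^ 2| / ε ≤ (6 * |y - z|) / ε := div_le_div_of_nonneg_right (cl_sq_lip y z) hε.le
    _ = 6 / ε * |y - z| := by ring

section
variable {V : ℝ → ℝ} {ε c : ℝ}

lemma fld_bound (hε : 0 < ε) (hV0 : ∀ x, 0 ≤ V x) (hV : ∀ x, V x ≤ 4) (hc1 : -4 ≤ c) (hc2 : c ≤ 1)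
    (x y : ℝ) : |fld V ε c x y| ≤ 17 / ε := by
  unfold fld
  rw [abs_div, abs_of_pos hε]
  apply div_le_div_of_nonneg_right _ hε.le
  have h1 := cl_abs y
  have h2 : cl y ^ 2 ≤ 9 := by
    have := abs_le.mp h1
    nlinarith [this.1, this.2]
  have h3 := sq_nonneg (cl y)
  have h4 := hV0 x
  have h5 := hV x
  rw [abs_le]
  constructor <;> linarith

lemma fld_cont (hVc : Continuous V) (y : ℝ) : Continuous (fun x => fld V ε c x y) := by
  unfold fld
  exact ((continuous_const.sub hVc).sub continuous_const).div_const ε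

lemma exists_local (hε : 0 < ε) (hVc : Continuous V) (hV0 : ∀ x, 0 ≤ V x) (hV : ∀ x, V x ≤ 4)
    (hc1 : -4 ≤ c) (hc2 : c ≤ 1) :
    ∃ P : ℝ → ℝ, P 0 = 0 ∧ ∀ x ∈ Ioo (-3:ℝ) 3, HasDerivAt P (fld V ε c x (P x)) x := by
  have hPL : IsPicardLindelof (fld V ε c) (tmin := -3) (tmax := 3) ⟨0, by constructor <;> norm_num⟩
      0 (Real.toNNReal (17 / ε * 3)) 0 (Real.toNNReal (17 / ε)) (Real.toNNReal (6 / ε)) := by
    refine ⟨fun t _ => (fld_lip V hε c t).lipschitzOnWith, fun x _ => (fld_cont hVc x).continuousOn,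
      fun t _ x _ => ?_, ?_⟩
    · rw [Real.norm_eq_abs, Real.coe_toNNReal _ (by positivity)]
      exact fld_bound hε hV0 hV hc1 hc2 t x
    · rw [Real.coe_toNNReal _ (by positivity), Real.coe_toNNReal _ (by positivity)]
      simp
  obtain ⟨P, hP0, hP⟩ := hPL.exists_eq_forall_mem_Icc_hasDerivWithinAt₀
  exact ⟨P, hP0, fun x hx => (hP x ⟨hx.1.le, hx.2.le⟩).hasDerivAt (Icc_mem_nhds hx.1 hx.2)⟩

lemma exists_shoot (hε : 0 < ε) (hVc : Continuous V) (hV0 : ∀ x, 0 ≤ V x) (hV : ∀ x, V x ≤ 4) :
    ∃ c : ℝ, -4 ≤ c ∧ c ≤ 1 ∧ ∃ P : ℝ → ℝ, P 0 = 0 ∧ P (1/2) = 0 ∧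
      ∀ x ∈ Ioo (-3:ℝ) 3, HasDerivAt P (fld V ε c x (P x)) x := by
  have hex : ∀ c : Icc (-4:ℝ) 1, ∃ P : ℝ → ℝ, P 0 = 0 ∧
      ∀ x ∈ Ioo (-3:ℝ) 3, HasDerivAt P (fld V ε c x (P x)) x :=
    fun c => exists_local hε hVc hV0 hV c.2.1 c.2.2
  choose P hP0 hP using hex
  have hcontP : ∀ c, ContinuousOn (P c) (Icc 0 (1/2)) := fun c x hx =>
    (hP c x ⟨by linarith [hx.1], by linarith [hx.2]⟩).continuousAt.continuousWithinAt
  have hcont : Continuous (fun c : Icc (-4:ℝ) 1 => P c (1/2)) := by
    rw [Metric.continuous_iff]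
    intro c δ hδ
    set Kc : NNReal := Real.toNNReal (6 / ε) with hKc
    have hKpos : (Kc : ℝ) ≠ 0 := by
      rw [hKc, Real.coe_toNNReal _ (by positivity)]; positivity
    have hlim : Tendsto (fun r : ℝ => gronwallBound 0 Kc (r / ε) (1/2)) (𝓝 0) (𝓝 0) := by
      have h1 : Continuous (fun r : ℝ => gronwallBound 0 Kc (r / ε) (1/2)) :=
        (gronwallBound_continuous_ε 0 Kc (1/2)).comp (continuous_id.div_const ε)
      have h2 := h1.tendsto 0
      simp only [zero_div, gronwallBound_ε0_δ0] at h2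
      exact h2
    have hev := hlim.eventually_lt_const hδ
    obtain ⟨ρ, hρ, hball⟩ := Metric.eventually_nhds_iff.mp hev
    refine ⟨ρ, hρ, fun c' hc' => ?_⟩
    have key := dist_le_of_approx_trajectories_ODE (v := fld V ε c) (K := Kc)
      (f := P c') (g := P c) (a := 0) (b := 1/2) (δ := 0) (εf := dist c' c / ε) (εg := 0)
      (f' := fun x => fld V ε c' x (P c' x)) (g' := fun x => fld V ε c x (P c x))
      (fun t => fld_lip V hε c t) (hcontP c')
      (fun t ht => (hP c' t ⟨by linarith [ht.1], by linarith [ht.2]⟩).hasDerivWithinAt)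
      (fun t ht => by
        rw [Real.dist_eq]
        unfold fld
        have e : (cl (P c' t) ^ 2 - V t - c') / ε - (cl (P c' t) ^ 2 - V t - c) / ε =
          ((c:ℝ) - c') / ε := by ring
        rw [e, abs_div, abs_of_pos hε]
        apply div_le_div_of_nonneg_right _ hε.le
        rw [Subtype.dist_eq, Real.dist_eq, abs_sub_comm]) (hcontP c)
      (fun t ht => (hP c t ⟨by linarith [ht.1], by linarith [ht.2]⟩).hasDerivWithinAt)
      (fun t ht => by rw [dist_self]) (by rw [hP0, hP0, dist_self]) (1/2)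
      (right_mem_Icc.mpr (by norm_num))
    rw [add_zero, sub_zero] at key
    refine key.trans_lt ?_
    apply hball
    rw [Real.dist_eq, sub_zero, abs_of_nonneg dist_nonneg]
    exact hc'
  -- endpoints
  have hlo : 0 ≤ P ⟨-4, by constructor <;> norm_num⟩ (1/2) := by
    set c0 : Icc (-4:ℝ) 1 := ⟨-4, by constructor <;> norm_num⟩ with hc0
    have hmono : MonotoneOn (P c0) (Icc 0 (1/2)) := by
      apply monotoneOn_of_deriv_nonneg (convex_Icc _ _) (hcontP c0)
      · intro x hx
        rw [interior_Icc] at hx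
        exact (hP c0 x ⟨by linarith [hx.1], by linarith [hx.2]⟩).differentiableAt.differentiableWithinAt
      · intro x hx
        rw [interior_Icc] at hx
        rw [(hP c0 x ⟨by linarith [hx.1], by linarith [hx.2]⟩).deriv]
        unfold fld
        apply div_nonneg _ hε.le
        have := hV x
        have h3 := sq_nonneg (cl (P c0 x))
        simp only [hc0]
        linarith
    have := hmono (left_mem_Icc.mpr (by norm_num)) (right_mem_Icc.mpr (by norm_num))
      (by norm_num : (0:ℝ) ≤ 1/2)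
    rwa [hP0] at this
  have hhi : P ⟨1, by constructor <;> norm_num⟩ (1/2) ≤ 0 := by
    set c0 : Icc (-4:ℝ) 1 := ⟨1, by constructor <;> norm_num⟩ with hc0
    have key := image_le_of_deriv_right_lt_deriv_boundary' (f := P c0)
      (f' := fun x => fld V ε c0 x (P c0 x)) (a := 0) (b := 1/2) (hcontP c0)
      (fun x hx => (hP c0 x ⟨by linarith [hx.1], by linarith [hx.2]⟩).hasDerivWithinAt)
      (B := fun _ => 0) (B' := fun _ => 0) (by rw [hP0]) continuousOn_const
      (fun x _ => hasDerivWithinAt_const _ _ _) (by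
        intro x hx heq
        unfold fld
        apply div_neg_of_neg_of_pos _ hε
        have h0 : cl 0 = 0 := cl_eq (by norm_num) (by norm_num)
        simp only [heq, h0]
        have := hV0 x
        simp only [hc0]
        linarith)
    exact key (right_mem_Icc.mpr (by norm_num))
  have hpre : IsPreconnected (univ : Set (Icc (-4:ℝ) 1)) := by
    have : PreconnectedSpace (Icc (-4:ℝ) 1) := Subtype.preconnectedSpace isPreconnected_Icc
    exact isPreconnected_univ
  obtain ⟨c, -, hc⟩ := hpre.intermediate_value (mem_univ _) (mem_univ _) hcont.continuousOn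
    (⟨hhi, hlo⟩ : (0:ℝ) ∈ Icc _ _)
  exact ⟨c, c.2.1, c.2.2, P c, hP0 c, hc, hP c⟩

theorem exists_sol (hε : 0 < ε) (hVc : Continuous V) (hV0 : ∀ x, 0 ≤ V x) (hV : ∀ x, V x ≤ 4)
    (heven : ∀ x, V (-x) = V x) (hper : ∀ x, V (x + 1) = V x) :
    ∃ c v, IsSol V ε c v ∧ v 0 = 0 := by
  obtain ⟨c, hc1, hc2, P, hP0, hPh, hP⟩ := exists_shoot (ε := ε) hε hVc hV0 hV
  -- odd
  have hodd : ∀ x ∈ Ioo (-3:ℝ) 3, P (-x) = - P x := by
    have h := ODE_solution_unique_of_mem_Ioo (v := fld V ε c) (K := Real.toNNReal (6 / ε))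
      (s := fun _ => univ) (a := -3) (b := 3) (t₀ := 0) (f := P) (g := fun x => - P (-x))
      (fun t _ => (fld_lip V hε c t).lipschitzOnWith) ⟨by norm_num, by norm_num⟩
      (fun t ht => ⟨hP t ht, mem_univ _⟩) (fun t ht => ⟨?_, mem_univ _⟩) (by simp [hP0])
    · intro x hx
      have := h hx
      simp only at this
      linarith
    · have h1 := hP (-t) ⟨by linarith [ht.2], by linarith [ht.1]⟩
      have h2 : HasDerivAt (fun x => P (-x)) (fld V ε c (-t) (P (-t)) * -1) t :=
        h1.comp t (hasDerivAt_neg t)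
      refine h2.fun_neg.congr_deriv ?_
      unfold fld
      rw [cl_neg, heven]
      ring
  have hrefl : ∀ x ∈ Ioo (-2:ℝ) 3, P (1 - x) = - P x := by
    have h := ODE_solution_unique_of_mem_Ioo (v := fld V ε c) (K := Real.toNNReal (6 / ε))
      (s := fun _ => univ) (a := -2) (b := 3) (t₀ := 1/2) (f := P) (g := fun x => - P (1 - x))
      (fun t _ => (fld_lip V hε c t).lipschitzOnWith) ⟨by norm_num, by norm_num⟩
      (fun t ht => ⟨hP t ⟨by linarith [ht.1], ht.2⟩, mem_univ _⟩) (fun t ht => ⟨?_, mem_univ _⟩)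
      (by
        have : (1 - 1/2 : ℝ) = 1/2 := by norm_num
        simp only [this, hPh, neg_zero])
    · intro x hx
      have := h hx
      simp only at this
      linarith
    · have h1 := hP (1 - t) ⟨by linarith [ht.2], by linarith [ht.1]⟩
      have h2 : HasDerivAt (fun x => P (1 - x)) (fld V ε c (1 - t) (P (1 - t)) * -1) t :=
        h1.comp t ((hasDerivAt_id t).const_sub 1)
      refine h2.fun_neg.congr_deriv ?_
      unfold fld
      have e : V (1 - t) = V t := by
        have := hper (-t)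
        rw [heven] at this
        rw [← this]; congr 1; ring
      rw [cl_neg, e]
      ring
  have hperP : ∀ x ∈ Ioo (-2:ℝ) 3, P (x - 1) = P x := by
    intro x hx
    have h1 := hrefl x hx
    have h2 := hodd (x - 1) ⟨by linarith [hx.1], by linarith [hx.2]⟩
    have e : -(x - 1) = 1 - x := by ring
    rw [e, h1] at h2
    linarith
  -- periodic extension
  set R : ℝ → ℝ := fun x => P (Int.fract x) with hR
  have hloc : ∀ x : ℝ, R =ᶠ[𝓝 x] fun y => P (y - ⌊x⌋) := by
    intro x
    have hmem : Ioo ((⌊x⌋ : ℝ) - 1) (⌊x⌋ + 1) ∈ 𝓝 x :=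
      Ioo_mem_nhds (by linarith [Int.floor_le x]) (Int.lt_floor_add_one x)
    filter_upwards [hmem] with y hy
    rcases le_or_gt (⌊x⌋ : ℝ) y with h | h
    · have : ⌊y⌋ = ⌊x⌋ := by
        rw [Int.floor_eq_iff]; exact ⟨h, hy.2⟩
      simp only [hR, Int.fract, this]
    · have : ⌊y⌋ = ⌊x⌋ - 1 := by
        rw [Int.floor_eq_iff]; push_cast; exact ⟨hy.1.le, by linarith⟩
      have e2 := hperP (y - ⌊x⌋ + 1) ⟨by linarith [hy.1], by linarith [hy.2]⟩
      have e3 : y - ⌊x⌋ + 1 - 1 = y - ⌊x⌋ := by ring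
      rw [e3] at e2
      simp only [hR, Int.fract, this]
      rw [e2]; congr 1; push_cast; ring
  have hVfl : ∀ x : ℝ, V (x - ⌊x⌋) = V x := by
    intro x
    have hp : Function.Periodic V 1 := hper
    have := hp.sub_int_mul_eq (x := x) ⌊x⌋
    rwa [mul_one] at this
  have hRd : ∀ x, HasDerivAt R (fld V ε c x (R x)) x := by
    intro x
    have h1 := hP (x - ⌊x⌋) ⟨by linarith [Int.floor_le x], by linarith [Int.lt_floor_add_one x]⟩
    have h2 : HasDerivAt (fun y => P (y - ⌊x⌋)) (fld V ε c (x - ⌊x⌋) (P (x - ⌊x⌋)) * 1) x :=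
      h1.comp x ((hasDerivAt_id x).sub_const _)
    have h3 := h2.congr_of_eventuallyEq (hloc x)
    refine h3.congr_deriv ?_
    have e1 : R x = P (x - ⌊x⌋) := rfl
    rw [mul_one, e1]
    unfold fld
    rw [hVfl]
  have hRper : ∀ x, R (x + 1) = R x := by
    intro x; simp only [hR, Int.fract_add_one]
  have hR0 : R 0 = 0 := by simp [hR, hP0]
  have hRdiff : Differentiable ℝ R := fun x => (hRd x).differentiableAt
  have hRc : Continuous R := hRdiff.continuous
  have hRodd : ∀ x, R (-x) = - R x := by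
    have h := ODE_solution_unique_univ (v := fld V ε c) (K := Real.toNNReal (6 / ε))
      (s := fun _ => univ) (t₀ := 0) (f := R) (g := fun x => - R (-x))
      (fun t => (fld_lip V hε c t).lipschitzOnWith)
      (fun t => ⟨hRd t, mem_univ _⟩) (fun t => ⟨?_, mem_univ _⟩) (by simp [hR0])
    · intro x
      have := congrFun h x
      linarith
    · have h1 := hRd (-t)
      have h2 : HasDerivAt (fun x => R (-x)) (fld V ε c (-t) (R (-t)) * -1) t :=
        h1.comp t (hasDerivAt_neg t)
      refine h2.fun_neg.congr_deriv ?_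
      unfold fld
      rw [cl_neg, heven]
      ring
  -- clamp inactive
  have hlt : ∀ x, R x < 3 := by
    obtain ⟨x0, hx0⟩ := exists_max hRc hRper
    have hd := max_deriv hx0
    rw [(hRd x0).deriv] at hd
    unfold fld at hd
    have h2 : cl (R x0) ^ 2 = V x0 + c := by
      rw [div_eq_zero_iff] at hd
      rcases hd with hd | hd
      · linarith
      · exact absurd hd hε.ne'
    have h3 : R x0 < 3 := by
      by_contra hcon
      push Not at hcon
      have : cl (R x0) = 3 := by
        unfold cl; rw [min_eq_left hcon]; norm_num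
      rw [this] at h2
      have := hV x0
      linarith
    exact fun x => (hx0 x).trans_lt h3
  have hgt : ∀ x, -3 < R x := by
    intro x
    have := hlt (-x)
    rw [hRodd] at this
    linarith
  -- the function v
  set v : ℝ → ℝ := fun x => ∫ t in (0:ℝ)..x, R t with hv
  have hvd : ∀ x, HasDerivAt v (R x) x := fun x =>
    intervalIntegral.integral_hasDerivAt_right (hRc.intervalIntegrable _ _)
      (hRc.stronglyMeasurableAtFilter _ _) hRc.continuousAt
  have hdv : deriv v = R := funext fun x => (hvd x).deriv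
  have hddv : deriv R = fun x => fld V ε c x (R x) := funext fun x => (hRd x).deriv
  have hRC1 : ContDiff ℝ 1 R := by
    rw [contDiff_one_iff_deriv]
    refine ⟨hRdiff, ?_⟩
    rw [hddv]
    unfold fld
    exact ((((cl_cont.comp hRc).pow 2).sub hVc).sub continuous_const).div_const ε
  have hvC2 : ContDiff ℝ 2 v := by
    rw [← one_add_one_eq_two, contDiff_succ_iff_deriv]
    refine ⟨fun x => (hvd x).differentiableAt, by simp, ?_⟩
    rw [hdv]; exact hRC1
  have hv0 : v 0 = 0 := by simp [hv]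
  have hvper : ∀ x, v (x + 1) = v x := by
    have hc : ∀ x, (fun x => v (1 - x) - v x) x = (fun x => v (1 - x) - v x) (1/2) := by
      intro x
      have hd : ∀ y, HasDerivAt (fun x => v (1 - x) - v x) 0 y := by
        intro y
        have a1 : HasDerivAt (fun x => v (1 - x)) (R (1 - y) * -1) y :=
          (hvd (1 - y)).comp y ((hasDerivAt_id y).const_sub 1)
        refine (a1.sub (hvd y)).congr_deriv ?_
        have e1 : R (1 - y) = - R y := by
          have := hRper (-y)
          rw [hRodd] at this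
          rw [← this]; congr 1; ring
        rw [e1]; ring
      exact is_const_of_deriv_eq_zero (fun y => (hd y).differentiableAt) (fun y => (hd y).deriv) _ _
    have hc2 : ∀ x, (fun x => v (x + 1) - v x) x = (fun x => v (x + 1) - v x) 0 := by
      intro x
      have hd : ∀ y, HasDerivAt (fun x => v (x + 1) - v x) 0 y := by
        intro y
        have a1 : HasDerivAt (fun x => v (x + 1)) (R (y + 1)) y :=
          (hvd (y + 1)).comp_add_const y 1
        refine (a1.sub (hvd y)).congr_deriv ?_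
        rw [hRper]; ring
      exact is_const_of_deriv_eq_zero (fun y => (hd y).differentiableAt) (fun y => (hd y).deriv) _ _
    intro x
    have a := hc2 x
    have b := hc 0
    simp only [zero_add, sub_zero] at a b
    norm_num at b
    linarith
  refine ⟨c, v, ⟨hvC2, hvper, fun x => ?_⟩, hv0⟩
  rw [hdv, hddv]
  simp only [fld, cl_eq (hgt x) (hlt x)]
  field_simp
  ring

end

end Pool.Agent.LibCell
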