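import Pool.Agent.LibCell.Profile
set_option autoImplicit false
set_option maxHeartbeats 1000000
open Filter Topology Set

namespace Pool.Agent.LibCell

/-- centres -/
noncomputable def uc (k : ℕ) : ℝ := 1 - (1/2:ℝ) ^ k / 200
/-- radii -/
noncomputable def rc (k : ℕ) : ℝ := (1/2:ℝ) ^ k / 1000

lemma half_pow_pos (k : ℕ) : (0:ℝ) < (1/2:ℝ) ^ k := by positivity

lemma half_pow_le_one (k : ℕ) : (1/2:ℝ) ^ k ≤ 1 := pow_le_one₀ (by norm_num) (by norm_num)

lemma uc_lt (k : ℕ) : uc k < 1 := by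
  unfold uc; linarith [half_pow_pos k]

lemma le_uc (k : ℕ) : 0.99 ≤ uc k := by
  unfold uc; linarith [half_pow_le_one k]

lemma uc_sep {j k : ℕ} (h : j < k) : uc j + rc j < uc k := by
  unfold uc rc
  have h1 : (1/2:ℝ) ^ k ≤ (1/2:ℝ) ^ (j + 1) :=
    pow_le_pow_of_le_one (by norm_num) (by norm_num) h
  have h2 : (1/2:ℝ) ^ (j + 1) = (1/2:ℝ) ^ j / 2 := by rw [pow_succ]; ring
  have := half_pow_pos j
  linarith

/-- signed centres: negative for even index, positive for odd index -/
noncomputable def cc (k : ℕ) : ℝ := if Even k then - uc k else uc k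

noncomputable def bmp (k : ℕ) : ContDiffBump (cc k) where
  rIn := rc k / 2
  rOut := rc k
  rIn_pos := by unfold rc; positivity
  rIn_lt_rOut := by
    have : 0 < rc k := by unfold rc; positivity
    linarith

lemma bmp_bound (k : ℕ) : ∃ C : ℝ, 0 ≤ C ∧ ∀ j ≤ k, ∀ x, ‖iteratedFDeriv ℝ j (bmp k) x‖ ≤ C := by
  have h : ∀ j : ℕ, ∃ C : ℝ, ∀ x, ‖iteratedFDeriv ℝ j (bmp k) x‖ ≤ C := by
    intro j
    have hc : Continuous (iteratedFDeriv ℝ j (bmp k)) :=
      ((bmp k).contDiff (n := ⊤)).continuous_iteratedFDeriv (by exact_mod_cast le_top)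
    exact hc.bounded_above_of_compact_support ((bmp k).hasCompactSupport.iteratedFDeriv j)
  choose C hC using h
  have hC0 : ∀ j, 0 ≤ C j := fun j => (norm_nonneg _).trans (hC j 0)
  refine ⟨∑ j ∈ Finset.range (k+1), C j, Finset.sum_nonneg (fun j _ => hC0 j), fun j hj x => ?_⟩
  refine (hC j x).trans ?_
  exact Finset.single_le_sum (f := C) (fun i _ => hC0 i) (Finset.mem_range.mpr (by omega))

noncomputable def Cb (k : ℕ) : ℝ := (bmp_bound k).choose
lemma Cb_nonneg (k : ℕ) : 0 ≤ Cb k := (bmp_bound k).choose_spec.1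
lemma Cb_spec (k : ℕ) : ∀ j ≤ k, ∀ x, ‖iteratedFDeriv ℝ j (bmp k) x‖ ≤ Cb k :=
  (bmp_bound k).choose_spec.2

noncomputable def wt (k : ℕ) : ℝ := (1/2:ℝ) ^ (k+1) / (1 + Cb k)

lemma wt_pos (k : ℕ) : 0 < wt k := by
  unfold wt
  have := Cb_nonneg k
  positivity

lemma wt_le (k : ℕ) : wt k ≤ (1/2:ℝ) ^ (k+1) := by
  unfold wt
  apply div_le_self (by positivity)
  linarith [Cb_nonneg k]

lemma wt_Cb (k : ℕ) : wt k * Cb k ≤ (1/2:ℝ) ^ (k+1) := by
  unfold wt
  have h := Cb_nonneg k
  rw [div_mul_eq_mul_div, div_le_iff₀ (by linarith)]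
  have := half_pow_pos (k+1)
  nlinarith

lemma summable_half : Summable (fun k : ℕ => (1/2:ℝ) ^ (k+1)) := by
  have := summable_geometric_of_lt_one (r := (1/2:ℝ)) (by norm_num) (by norm_num)
  exact (summable_nat_add_iff 1).mpr this

lemma tsum_half : ∑' k : ℕ, (1/2:ℝ) ^ (k+1) = 1 := by
  have h : ∀ k : ℕ, (1/2:ℝ) ^ (k+1) = (1/2:ℝ) ^ k * (1/2) := fun k => pow_succ _ _
  simp_rw [h]
  rw [tsum_mul_right, tsum_geometric_of_lt_one (by norm_num) (by norm_num)]
  norm_num

lemma summable_wt : Summable wt :=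
  Summable.of_nonneg_of_le (fun k => (wt_pos k).le) wt_le summable_half

/-- the parameter space -/
abbrev X : Type := ℕ → Icc (0:ℝ) 1

noncomputable def term (h : X) (k : ℕ) (u : ℝ) : ℝ := (h k : ℝ) * wt k * bmp k u

noncomputable def Gam (h : X) (u : ℝ) : ℝ := ∑' k, term h k u

lemma term_nonneg (h : X) (k : ℕ) (u : ℝ) : 0 ≤ term h k u := by
  unfold term
  have := (h k).2.1
  have := (wt_pos k).le
  have := (bmp k).nonneg' u
  positivity

lemma term_le (h : X) (k : ℕ) (u : ℝ) : term h k u ≤ wt k := by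
  unfold term
  have h1 := (h k).2.1
  have h2 := (h k).2.2
  have h3 := wt_pos k
  have h4 := (bmp k).nonneg' u
  have h5 := (bmp k).le_one (x := u)
  calc (h k : ℝ) * wt k * bmp k u ≤ 1 * wt k * 1 := by gcongr
    _ = wt k := by ring

lemma term_summable (h : X) (u : ℝ) : Summable (fun k => term h k u) :=
  Summable.of_nonneg_of_le (fun k => term_nonneg h k u) (fun k => term_le h k u) summable_wt

lemma Gam_nonneg (h : X) (u : ℝ) : 0 ≤ Gam h u := tsum_nonneg (fun k => term_nonneg h k u)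

lemma Gam_le_one (h : X) (u : ℝ) : Gam h u ≤ 1 := by
  rw [← tsum_half]
  exact Summable.tsum_le_tsum (fun k => (term_le h k u).trans (wt_le k)) (term_summable h u)
    summable_half

lemma Gam_contDiff (h : X) : ContDiff ℝ (⊤ : ℕ∞) (Gam h) := by
  have := contDiff_tsum_of_eventually (𝕜 := ℝ) (N := ⊤) (f := fun k u => term h k u)
    (v := fun _ k => (1/2:ℝ) ^ (k+1)) (fun k => ?_) (fun _ _ => summable_half) (fun j _ => ?_)
  · exact this
  · exact contDiff_const.mul (bmp k).contDiff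
  · have : {k : ℕ | j ≤ k} ∈ (cofinite : Filter ℕ) := by
      rw [Nat.cofinite_eq_atTop]; exact mem_atTop j
    filter_upwards [this] with k hk x
    have e : (fun u => term h k u) = fun u => ((h k : ℝ) * wt k) • (bmp k u) := by
      ext u; simp [term]
    rw [e, iteratedFDeriv_const_smul_apply' (by exact (bmp k).contDiffAt), norm_smul]
    have h1 := Cb_spec k j hk x
    have h2 := (h k).2.1
    have h3 := (h k).2.2
    have h4 := wt_pos k
    rw [Real.norm_eq_abs, abs_of_nonneg (by positivity)]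
    calc (h k : ℝ) * wt k * ‖iteratedFDeriv ℝ j (bmp k) x‖ ≤ 1 * wt k * Cb k := by gcongr
      _ = wt k * Cb k := by ring
      _ ≤ _ := wt_Cb k

lemma bmp_zero_even {k : ℕ} (hk : Even k) {u : ℝ} (hu : 0 ≤ u) : bmp k u = 0 := by
  apply (bmp k).zero_of_le_dist
  show rc k ≤ dist u (cc k)
  have : cc k = - uc k := by simp [cc, hk]
  rw [this, Real.dist_eq, sub_neg_eq_add]
  have h1 := le_uc k
  rw [abs_of_nonneg (by linarith)]
  unfold rc
  have := half_pow_le_one k
  linarith

lemma bmp_zero_odd {k : ℕ} (hk : ¬ Even k) {u : ℝ} (hu : u ≤ 0) : bmp k u = 0 := by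
  apply (bmp k).zero_of_le_dist
  show rc k ≤ dist u (cc k)
  have : cc k = uc k := by simp [cc, hk]
  rw [this, Real.dist_eq, abs_sub_comm]
  have h1 := le_uc k
  rw [abs_of_nonneg (by linarith)]
  unfold rc
  have := half_pow_le_one k
  linarith

lemma bmp_zero_far_odd {j k : ℕ} (hj : ¬ Even j) (hjk : j < k) {u : ℝ} (hu : uc k ≤ u) :
    bmp j u = 0 := by
  apply (bmp j).zero_of_le_dist
  show rc j ≤ dist u (cc j)
  have : cc j = uc j := by simp [cc, hj]
  have h2 := uc_sep hjk
  have h3 : 0 < rc j := by unfold rc; positivity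
  rw [this, Real.dist_eq, abs_of_nonneg (by linarith)]
  linarith

lemma bmp_zero_far_even {j k : ℕ} (hj : Even j) (hjk : j < k) {u : ℝ} (hu : uc k ≤ u) :
    bmp j (-u) = 0 := by
  apply (bmp j).zero_of_le_dist
  show rc j ≤ dist (-u) (cc j)
  have : cc j = - uc j := by simp [cc, hj]
  have h2 := uc_sep hjk
  have h3 : 0 < rc j := by unfold rc; positivity
  rw [this, Real.dist_eq, abs_sub_comm, abs_of_nonneg (by linarith)]
  linarith

/-- last nonzero index even: selection of the positive sign -/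
theorem sel_even (h : X) {k : ℕ} (hk : Even k) (hk0 : 0 < (h k : ℝ))
    (hz : ∀ j, k < j → (h j : ℝ) = 0) :
    ∃ ε0 > 0, ∀ ε, 0 < ε → ε < ε0 → ∀ c v, IsSol (Vf (Gam h)) ε c v → v 0 = 0 →
      1/10 < v (1/2) := by
  apply select_pos ((Gam_contDiff h).of_le (by exact_mod_cast le_top)) (Gam_nonneg h)
    (Gam_le_one h) (le_uc k) (uc_lt k)
  · intro u hu1 hu2
    have : ∀ j, term h j u = 0 := by
      intro j
      unfold term
      by_cases hj : Even j
      · rw [bmp_zero_even hj (by linarith [le_uc k]), mul_zero]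
      · rcases lt_trichotomy j k with hjk | hjk | hjk
        · rw [bmp_zero_far_odd hj hjk hu1, mul_zero]
        · rw [hjk] at hj; exact absurd hk hj
        · rw [hz j hjk]; ring
    unfold Gam
    simp [this]
  · have h1 : 0 < term h k (-uc k) := by
      unfold term
      have : bmp k (-uc k) = 1 := by
        apply (bmp k).one_of_mem_closedBall
        have e : cc k = - uc k := by simp [cc, hk]
        show -uc k ∈ Metric.closedBall (cc k) (rc k / 2)
        rw [e]
        apply Metric.mem_closedBall_self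
        unfold rc; positivity
      rw [this]
      have := wt_pos k
      positivity
    exact h1.trans_le ((term_summable h _).le_tsum k (fun j _ => term_nonneg h j _))

theorem sel_odd (h : X) {k : ℕ} (hk : ¬ Even k) (hk0 : 0 < (h k : ℝ))
    (hz : ∀ j, k < j → (h j : ℝ) = 0) :
    ∃ ε0 > 0, ∀ ε, 0 < ε → ε < ε0 → ∀ c v, IsSol (Vf (Gam h)) ε c v → v 0 = 0 →
      v (1/2) < -(1/10) := by
  apply select_neg ((Gam_contDiff h).of_le (by exact_mod_cast le_top)) (Gam_nonneg h)
    (Gam_le_one h) (le_uc k) (uc_lt k)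
  · intro u hu1 hu2
    have : ∀ j, term h j (-u) = 0 := by
      intro j
      unfold term
      by_cases hj : Even j
      · rcases lt_trichotomy j k with hjk | hjk | hjk
        · rw [bmp_zero_far_even hj hjk hu1, mul_zero]
        · rw [hjk] at hj; exact absurd hj hk
        · rw [hz j hjk]; ring
      · rw [bmp_zero_odd hj (by linarith [le_uc k]), mul_zero]
    unfold Gam
    simp [this]
  · have h1 : 0 < term h k (uc k) := by
      unfold term
      have : bmp k (uc k) = 1 := by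
        apply (bmp k).one_of_mem_closedBall
        have e : cc k = uc k := by simp [cc, hk]
        show uc k ∈ Metric.closedBall (cc k) (rc k / 2)
        rw [e]
        apply Metric.mem_closedBall_self
        unfold rc; positivity
      rw [this]
      have := wt_pos k
      positivity
    exact h1.trans_le ((term_summable h _).le_tsum k (fun j _ => term_nonneg h j _))

/-- distance on parameters controlling the potentials -/
noncomputable def dX (h h' : X) : ℝ := ∑' k, |(h k : ℝ) - h' k| * wt k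

lemma dX_term_le (h h' : X) (k : ℕ) : |(h k : ℝ) - h' k| * wt k ≤ wt k := by
  have h1 := (h k).2.1
  have h2 := (h k).2.2
  have h3 := (h' k).2.1
  have h4 := (h' k).2.2
  have : |(h k : ℝ) - h' k| ≤ 1 := by rw [abs_le]; constructor <;> linarith
  have := wt_pos k
  nlinarith

lemma dX_cont (h : X) : Continuous (fun h' : X => dX h h') := by
  apply continuous_tsum (u := wt)
  · intro k
    exact ((continuous_const.sub (continuous_subtype_val.comp (continuous_apply k))).abs).mul
      continuous_const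
  · exact summable_wt
  · intro k h'
    have := dX_term_le h h' k
    rw [Real.norm_eq_abs, abs_of_nonneg (mul_nonneg (abs_nonneg _) (wt_pos k).le)]
    exact this

lemma dX_self (h : X) : dX h h = 0 := by simp [dX]

lemma Gam_sub_le (h h' : X) (u : ℝ) : |Gam h u - Gam h' u| ≤ dX h h' := by
  unfold Gam dX
  rw [← (term_summable h u).tsum_sub (term_summable h' u)]
  have hs : Summable (fun k => |(h k : ℝ) - h' k| * wt k) :=
    Summable.of_nonneg_of_le (fun k => mul_nonneg (abs_nonneg _) (wt_pos k).le)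
      (dX_term_le h h') summable_wt
  have hle : ∀ k, ‖term h k u - term h' k u‖ ≤ |(h k : ℝ) - h' k| * wt k := by
    intro k
    unfold term
    have e : (h k : ℝ) * wt k * bmp k u - (h' k : ℝ) * wt k * bmp k u =
      ((h k : ℝ) - h' k) * wt k * bmp k u := by ring
    rw [e, norm_mul, norm_mul, Real.norm_eq_abs, Real.norm_eq_abs, Real.norm_eq_abs,
      abs_of_pos (wt_pos k), abs_of_nonneg ((bmp k).nonneg' u)]
    exact mul_le_of_le_one_right (mul_nonneg (abs_nonneg _) (wt_pos k).le) (bmp k).le_one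
  have := tsum_of_norm_bounded hs.hasSum hle
  simpa using this

lemma Vf_sub_le (h h' : X) (x : ℝ) : |Vf (Gam h) x - Vf (Gam h') x| ≤ 4 * dX h h' := by
  have e : Vf (Gam h) x - Vf (Gam h') x = (Sf (Gam h) x + Sf (Gam h') x) *
    (Sf (Gam h) x - Sf (Gam h') x) := by unfold Vf; ring
  have e2 : Sf (Gam h) x - Sf (Gam h') x = Real.sin (2 * Real.pi * x) *
    (Gam h (Real.cos (2 * Real.pi * x)) - Gam h' (Real.cos (2 * Real.pi * x))) := by
    unfold Sf; ring
  rw [e, e2, abs_mul, abs_mul]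
  have a := Sf_abs (Gam_nonneg h) (Gam_le_one h) x
  have b := Sf_abs (Gam_nonneg h') (Gam_le_one h') x
  have c := Real.abs_sin_le_one (2 * Real.pi * x)
  have d := Gam_sub_le h h' (Real.cos (2 * Real.pi * x))
  have f : |Sf (Gam h) x + Sf (Gam h') x| ≤ 4 := (abs_add_le _ _).trans (by linarith)
  calc _ ≤ 4 * (1 * dX h h') := by
        apply mul_le_mul f _ (by positivity) (by norm_num)
        apply mul_le_mul c d (abs_nonneg _) (by norm_num)
    _ = _ := by ring

/-- the open sets -/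
def Upos (n : ℕ) : Set X := {h | ∃ ε, 0 < ε ∧ ε < 1 / ((n:ℝ) + 1) ∧
  ∃ c v, IsSol (Vf (Gam h)) ε c v ∧ v 0 = 0 ∧ 1/10 < v (1/2)}

def Uneg (n : ℕ) : Set X := {h | ∃ ε, 0 < ε ∧ ε < 1 / ((n:ℝ) + 1) ∧
  ∃ c v, IsSol (Vf (Gam h)) ε c v ∧ v 0 = 0 ∧ v (1/2) < -(1/10)}

lemma ev_close (h : X) {ε : ℝ} (hε : 0 < ε) {δ : ℝ} (hδ : 0 < δ) :
    ∀ᶠ h' in 𝓝 h, 2 * (4 * dX h h') / ε * Real.exp (4 / ε) < δ := by
  have hc : Continuous (fun h' : X => 2 * (4 * dX h h') / ε * Real.exp (4 / ε)) :=
    (((continuous_const.mul (continuous_const.mul (dX_cont h))).div_const ε).mul continuous_const)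
  have := hc.tendsto h
  simp only [dX_self, mul_zero, zero_div, zero_mul] at this
  exact this.eventually_lt_const hδ

lemma stab' {h h' : X} {ε c c' : ℝ} {v v' : ℝ → ℝ} (hε : 0 < ε)
    (hv : IsSol (Vf (Gam h)) ε c v) (hv' : IsSol (Vf (Gam h')) ε c' v') (h0 : v 0 = 0)
    (h0' : v' 0 = 0) :
    |v (1/2) - v' (1/2)| ≤ 2 * (4 * dX h h') / ε * Real.exp (4 / ε) :=
  hv.stab hv' hε Vf_nonneg (Vf_le4 (Gam_nonneg h) (Gam_le_one h)) Vf_nonneg
    (Vf_le4 (Gam_nonneg h') (Gam_le_one h')) Vf_even Vf_even h0 h0' (Vf_sub_le h h')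

lemma Upos_open (n : ℕ) : IsOpen (Upos n) := by
  rw [isOpen_iff_mem_nhds]
  rintro h ⟨ε, hε, hεn, c, v, hv, h0, hgt⟩
  filter_upwards [ev_close h hε (sub_pos.mpr hgt)] with h' hh'
  obtain ⟨c', v', hv', h0'⟩ := exists_solf hε (Gam_contDiff h').continuous (Gam_nonneg h')
    (Gam_le_one h')
  refine ⟨ε, hε, hεn, c', v', hv', h0', ?_⟩
  have := stab' hε hv hv' h0 h0'
  have := (abs_le.mp this).2
  linarith

lemma Uneg_open (n : ℕ) : IsOpen (Uneg n) := by
  rw [isOpen_iff_mem_nhds]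
  rintro h ⟨ε, hε, hεn, c, v, hv, h0, hgt⟩
  filter_upwards [ev_close h hε (sub_pos.mpr hgt)] with h' hh'
  obtain ⟨c', v', hv', h0'⟩ := exists_solf hε (Gam_contDiff h').continuous (Gam_nonneg h')
    (Gam_le_one h')
  refine ⟨ε, hε, hεn, c', v', hv', h0', ?_⟩
  have := stab' hε hv hv' h0 h0'
  have := (abs_le.mp this).1
  linarith

/-- truncation -/
noncomputable def trc (h : X) (m : ℕ) : X := fun i => if i < m then h i else if i = m then 1 else 0

lemma trc_tendsto (h : X) (s : ℕ → ℕ) (hs : Tendsto s atTop atTop) :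
    Tendsto (fun m => trc h (s m)) atTop (𝓝 h) := by
  rw [tendsto_pi_nhds]
  intro i
  have : ∀ᶠ m in atTop, trc h (s m) i = h i := by
    filter_upwards [hs.eventually_gt_atTop i] with m hm
    simp [trc, hm]
  exact tendsto_nhds_of_eventually_eq this

lemma Upos_dense (n : ℕ) : Dense (Upos n) := by
  intro h
  have hs : Tendsto (fun m : ℕ => 2 * m) atTop atTop :=
    tendsto_atTop_mono (fun m => by simp only [id]; omega) tendsto_id
  refine mem_closure_of_tendsto (trc_tendsto h _ hs) (Filter.Eventually.of_forall fun m => ?_)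
  obtain ⟨ε0, hε0, H⟩ := sel_even (trc h (2 * m)) (k := 2 * m) (by simp) (by simp [trc])
    (fun j hj => by
      have h1 : ¬ j < 2 * m := by omega
      have h2 : ¬ j = 2 * m := by omega
      simp [trc, h1, h2])
  have hn : (0:ℝ) < 1 / ((n:ℝ) + 1) := by positivity
  set ε := min (ε0 / 2) (1 / ((n:ℝ) + 1) / 2) with hε
  have hεpos : 0 < ε := by positivity
  have e1 : ε < ε0 := (min_le_left _ _).trans_lt (by linarith)
  have e2 : ε < 1 / ((n:ℝ) + 1) := (min_le_right _ _).trans_lt (by linarith)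
  obtain ⟨c', v', hv', h0'⟩ := exists_solf hεpos (Gam_contDiff (trc h (2*m))).continuous
    (Gam_nonneg _) (Gam_le_one _)
  exact ⟨ε, hεpos, e2, c', v', hv', h0', H ε hεpos e1 c' v' hv' h0'⟩

lemma Uneg_dense (n : ℕ) : Dense (Uneg n) := by
  intro h
  have hs : Tendsto (fun m : ℕ => 2 * m + 1) atTop atTop :=
    tendsto_atTop_mono (fun m => by simp only [id]; omega) tendsto_id
  refine mem_closure_of_tendsto (trc_tendsto h _ hs) (Filter.Eventually.of_forall fun m => ?_)
  obtain ⟨ε0, hε0, H⟩ := sel_odd (trc h (2 * m + 1)) (k := 2 * m + 1)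
    (by simp) (by simp [trc])
    (fun j hj => by
      have h1 : ¬ j < 2 * m + 1 := by omega
      have h2 : ¬ j = 2 * m + 1 := by omega
      simp [trc, h1, h2])
  have hn : (0:ℝ) < 1 / ((n:ℝ) + 1) := by positivity
  set ε := min (ε0 / 2) (1 / ((n:ℝ) + 1) / 2) with hε
  have hεpos : 0 < ε := by positivity
  have e1 : ε < ε0 := (min_le_left _ _).trans_lt (by linarith)
  have e2 : ε < 1 / ((n:ℝ) + 1) := (min_le_right _ _).trans_lt (by linarith)
  obtain ⟨c', v', hv', h0'⟩ := exists_solf hεpos (Gam_contDiff (trc h (2*m+1))).continuous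
    (Gam_nonneg _) (Gam_le_one _)
  exact ⟨ε, hεpos, e2, c', v', hv', h0', H ε hεpos e1 c' v' hv' h0'⟩

/-- **1D result.** -/
theorem main1D : ∃ Γ : ℝ → ℝ, ContDiff ℝ (⊤ : ℕ∞) Γ ∧ (∀ u, 0 ≤ Γ u) ∧ (∀ u, Γ u ≤ 1) ∧
    (∀ n : ℕ, ∃ ε, 0 < ε ∧ ε < 1 / ((n:ℝ) + 1) ∧
      ∃ c v, IsSol (Vf Γ) ε c v ∧ v 0 = 0 ∧ 1/10 < v (1/2)) ∧
    (∀ n : ℕ, ∃ ε, 0 < ε ∧ ε < 1 / ((n:ℝ) + 1) ∧
      ∃ c v, IsSol (Vf Γ) ε c v ∧ v 0 = 0 ∧ v (1/2) < -(1/10)) := by
  have hd := dense_iInter_of_isOpen (X := X) (ι := ℕ × Bool)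
    (f := fun p => if p.2 then Upos p.1 else Uneg p.1)
    (fun p => by
      cases hp : p.2
      · simpa [hp] using Uneg_open p.1
      · simpa [hp] using Upos_open p.1)
    (fun p => by
      cases hp : p.2
      · simpa [hp] using Uneg_dense p.1
      · simpa [hp] using Upos_dense p.1)
  obtain ⟨h, hh⟩ := hd.nonempty
  rw [mem_iInter] at hh
  refine ⟨Gam h, Gam_contDiff h, Gam_nonneg h, Gam_le_one h, fun n => ?_, fun n => ?_⟩
  · have := hh (n, true)
    simpa [Upos] using this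
  · have := hh (n, false)
    simpa [Uneg] using this

end Pool.Agent.LibCell
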