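import Pool.Agent.LibCell.Select
import Pool.Agent.LibCell.Exist
set_option autoImplicit false
open Filter Topology Set

namespace Pool.Agent.LibCell

/-- the root potential attached to a profile `Γ` -/
noncomputable def Sf (Γ : ℝ → ℝ) (x : ℝ) : ℝ :=
  Real.sin (2 * Real.pi * x) * (1 + Γ (Real.cos (2 * Real.pi * x)))

/-- the potential attached to a profile `Γ` -/
noncomputable def Vf (Γ : ℝ → ℝ) (x : ℝ) : ℝ := Sf Γ x ^ 2

section
variable {Γ : ℝ → ℝ}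

lemma Sf_contDiff {n : WithTop ℕ∞} (hΓ : ContDiff ℝ n Γ) : ContDiff ℝ n (Sf Γ) := by
  have h1 : ContDiff ℝ n (fun x : ℝ => 2 * Real.pi * x) := contDiff_const.mul contDiff_id
  exact (Real.contDiff_sin.comp h1).mul (contDiff_const.add (hΓ.comp (Real.contDiff_cos.comp h1)))

lemma Vf_contDiff {n : WithTop ℕ∞} (hΓ : ContDiff ℝ n Γ) : ContDiff ℝ n (Vf Γ) :=
  (Sf_contDiff hΓ).pow 2

lemma Sf_per (x : ℝ) : Sf Γ (x + 1) = Sf Γ x := by
  unfold Sf
  have e : 2 * Real.pi * (x + 1) = 2 * Real.pi * x + 2 * Real.pi := by ring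
  rw [e, Real.sin_add_two_pi, Real.cos_add_two_pi]

lemma Vf_per (x : ℝ) : Vf Γ (x + 1) = Vf Γ x := by
  unfold Vf; rw [Sf_per]

lemma Vf_even (x : ℝ) : Vf Γ (-x) = Vf Γ x := by
  unfold Vf Sf
  rw [mul_neg, Real.sin_neg, Real.cos_neg]
  ring

lemma Vf_nonneg (x : ℝ) : 0 ≤ Vf Γ x := sq_nonneg _

lemma Vf_le (h0 : ∀ u, 0 ≤ Γ u) (h1 : ∀ u, Γ u ≤ 1) (x : ℝ) :
    Vf Γ x ≤ 4 * Real.sin (2 * Real.pi * x) ^ 2 := by
  unfold Vf Sf
  rw [mul_pow]
  have a := h0 (Real.cos (2 * Real.pi * x))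
  have b := h1 (Real.cos (2 * Real.pi * x))
  have c : (1 + Γ (Real.cos (2 * Real.pi * x))) ^ 2 ≤ 4 := by nlinarith
  nlinarith [sq_nonneg (Real.sin (2 * Real.pi * x))]

lemma Vf_le4 (h0 : ∀ u, 0 ≤ Γ u) (h1 : ∀ u, Γ u ≤ 1) (x : ℝ) : Vf Γ x ≤ 4 := by
  have := Vf_le h0 h1 x
  have := Real.sin_sq_le_one (2 * Real.pi * x)
  linarith

lemma Sf_abs (h0 : ∀ u, 0 ≤ Γ u) (h1 : ∀ u, Γ u ≤ 1) (x : ℝ) : |Sf Γ x| ≤ 2 := by
  unfold Sf
  rw [abs_mul]
  have a := h0 (Real.cos (2 * Real.pi * x))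
  have b := h1 (Real.cos (2 * Real.pi * x))
  have c : |1 + Γ (Real.cos (2 * Real.pi * x))| ≤ 2 := by
    rw [abs_of_nonneg (by linarith)]; linarith
  have d := Real.abs_sin_le_one (2 * Real.pi * x)
  calc _ ≤ 1 * 2 := mul_le_mul d c (abs_nonneg _) (by norm_num)
    _ = 2 := by norm_num

lemma Vf_half_sub (x : ℝ) : Vf Γ (1/2 - x) = Vf (fun u => Γ (-u)) x := by
  unfold Vf Sf
  have e : 2 * Real.pi * (1/2 - x) = Real.pi - 2 * Real.pi * x := by ring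
  rw [e, Real.sin_pi_sub, Real.cos_pi_sub]

lemma exists_solf {ε : ℝ} (hε : 0 < ε) (hc : Continuous Γ) (h0 : ∀ u, 0 ≤ Γ u)
    (h1 : ∀ u, Γ u ≤ 1) : ∃ c v, IsSol (Vf Γ) ε c v ∧ v 0 = 0 :=
  exists_sol hε (Vf_contDiff (n := 0) (contDiff_zero.mpr hc)).continuous Vf_nonneg (Vf_le4 h0 h1)
    Vf_even Vf_per

lemma cos_pi16 : Real.cos (2 * Real.pi * (1/32)) ≤ 0.99 := by
  have e : 2 * Real.pi * (1/32) = Real.pi / 16 := by ring
  rw [e, Real.cos_pi_div_sixteen]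
  have h2 : Real.sqrt 2 ≤ 1.415 := by
    rw [Real.sqrt_le_left (by norm_num)]; norm_num
  have h3 : Real.sqrt (2 + Real.sqrt 2) ≤ 1.85 := by
    rw [Real.sqrt_le_left (by norm_num)]; linarith
  have h4 : Real.sqrt (2 + Real.sqrt (2 + Real.sqrt 2)) ≤ 1.98 := by
    rw [Real.sqrt_le_left (by norm_num)]; linarith
  linarith

theorem select_pos (hΓ : ContDiff ℝ 1 Γ) (h0 : ∀ u, 0 ≤ Γ u) (h1 : ∀ u, Γ u ≤ 1)
    {us : ℝ} (hu1 : 0.99 ≤ us) (hu2 : us < 1) (hz : ∀ u, us ≤ u → u ≤ 1 → Γ u = 0)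
    (hp : 0 < Γ (-us)) :
    ∃ ε0 > 0, ∀ ε, 0 < ε → ε < ε0 → ∀ c v, IsSol (Vf Γ) ε c v → v 0 = 0 → 1/10 < v (1/2) := by
  have hpi := Real.pi_pos
  -- x1
  have hcont : ContinuousOn (fun x : ℝ => Real.cos (2 * Real.pi * x)) (Icc 0 (1/32)) :=
    (Real.continuous_cos.comp (continuous_const.mul continuous_id)).continuousOn
  obtain ⟨x1, ⟨hx0, hx1⟩, hcos⟩ := intermediate_value_Icc' (by norm_num : (0:ℝ) ≤ 1/32) hcont
    (⟨cos_pi16.trans hu1, by simpa using hu2.le⟩ : us ∈ Icc (Real.cos (2 * Real.pi * (1/32)))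
      (Real.cos (2 * Real.pi * 0)))
  simp only at hcos
  have hx1pos : 0 < x1 := by
    rcases hx0.eq_or_lt with h | h
    · rw [← h] at hcos
      simp at hcos
      linarith
    · exact h
  have hSC : ContDiff ℝ 1 (Sf Γ) := Sf_contDiff hΓ
  have hSd : ∀ x, HasDerivAt (Sf Γ) (deriv (Sf Γ) x) x :=
    fun x => (hSC.differentiable (by norm_num) x).hasDerivAt
  have hS'c : Continuous (deriv (Sf Γ)) := hSC.continuous_deriv le_rfl
  have hS'per : ∀ x, deriv (Sf Γ) (x + 1) = deriv (Sf Γ) x := by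
    intro x
    have : (fun y => Sf Γ (y + 1)) = Sf Γ := funext Sf_per
    conv_rhs => rw [← this]
    rw [deriv_comp_add_const]
  obtain ⟨xm, hxm⟩ := exists_max (f := fun x => |deriv (Sf Γ) x|) hS'c.abs
    (fun x => by rw [hS'per])
  have hcosle : ∀ s ∈ Icc 0 x1, us ≤ Real.cos (2 * Real.pi * s) := by
    intro s hs
    rw [← hcos]
    apply Real.cos_le_cos_of_nonneg_of_le_pi
    · have := hs.1; positivity
    · nlinarith
    · have := hs.2; nlinarith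
  have hSs : ∀ s ∈ Icc 0 x1, Sf Γ s = Real.sin (2 * Real.pi * s) := by
    intro s hs
    unfold Sf
    rw [hz _ (hcosle s hs) (Real.cos_le_one _)]
    ring
  have hSr : ∀ s, Sf Γ (1/2 - s) = Real.sin (2 * Real.pi * s) *
      (1 + Γ (- Real.cos (2 * Real.pi * s))) := by
    intro s
    unfold Sf
    have e : 2 * Real.pi * (1/2 - s) = Real.pi - 2 * Real.pi * s := by ring
    rw [e, Real.sin_pi_sub, Real.cos_pi_sub]
  have hsn : ∀ s ∈ Icc (0:ℝ) (1/2), 0 ≤ Real.sin (2 * Real.pi * s) := by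
    intro s hs
    apply Real.sin_nonneg_of_nonneg_of_le_pi
    · have := hs.1; positivity
    · have := hs.2; nlinarith
  obtain ⟨ε0, hε0, H⟩ := selection (S := Sf Γ) (S' := deriv (Sf Γ)) hSd hxm
    (by
      intro x hx
      have a := hsn x hx
      have b := h0 (Real.cos (2 * Real.pi * x))
      unfold Sf
      nlinarith) (Sf_abs h0 h1)
    (by
      unfold Sf
      have e : 2 * Real.pi * (1/2) = Real.pi := by ring
      rw [e, Real.sin_pi, zero_mul]) hx1pos hx1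
    (by
      intro s hs
      rw [hSs s hs, hSr]
      have a := hsn s ⟨hs.1, by linarith [hs.2]⟩
      have b := h0 (- Real.cos (2 * Real.pi * s))
      nlinarith)
    (by
      rw [hSs x1 (right_mem_Icc.mpr hx1pos.le), hSr, hcos]
      have : 0 < Real.sin (2 * Real.pi * x1) := by
        apply Real.sin_pos_of_pos_of_lt_pi
        · positivity
        · nlinarith
      nlinarith)
  refine ⟨ε0, hε0, fun ε he he0 c v h hv0 => ?_⟩
  have := H ε he he0 c v h (h.deriv_zero he Vf_even) (h.deriv_half he Vf_even)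
    (h.c_nonpos he Vf_nonneg) (h.c_lower he (Vf_le h0 h1))
    (h.deriv_le he Vf_nonneg (Vf_le4 h0 h1)) (h.sub_le he Vf_nonneg (Vf_le4 h0 h1))
  rwa [hv0, sub_zero] at this

theorem select_neg (hΓ : ContDiff ℝ 1 Γ) (h0 : ∀ u, 0 ≤ Γ u) (h1 : ∀ u, Γ u ≤ 1)
    {us : ℝ} (hu1 : 0.99 ≤ us) (hu2 : us < 1) (hz : ∀ u, us ≤ u → u ≤ 1 → Γ (-u) = 0)
    (hp : 0 < Γ us) :
    ∃ ε0 > 0, ∀ ε, 0 < ε → ε < ε0 → ∀ c v, IsSol (Vf Γ) ε c v → v 0 = 0 → v (1/2) < -(1/10) := by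
  obtain ⟨ε0, hε0, H⟩ := select_pos (Γ := fun u => Γ (-u)) (hΓ.comp contDiff_neg)
    (fun u => h0 (-u)) (fun u => h1 (-u)) hu1 hu2 hz (by simpa using hp)
  refine ⟨ε0, hε0, fun ε he he0 c v h hv0 => ?_⟩
  have h2 := h.reflect
  have e : (fun x => Vf Γ (1/2 - x)) = Vf (fun u => Γ (-u)) := funext Vf_half_sub
  rw [e] at h2
  have := H ε he he0 c _ h2 (by simp)
  simp only [sub_self, hv0] at this
  linarith

end

end Pool.Agent.LibCell
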