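import Pool.Agent.LibCell.Stab
set_option autoImplicit false
set_option maxHeartbeats 1000000
open Filter Topology Set

namespace Pool.Agent.LibCell

lemma numeric_bound {x1 : ℝ} (h0 : 0 < x1) (h1 : x1 ≤ 1/32) :
    (0.31:ℝ) ≤ Real.cos (2 * Real.pi * x1) / Real.pi := by
  have hpi := Real.pi_pos
  have hpi2 : Real.pi < 3.15 := Real.pi_lt_d2
  have ha : 2 * Real.pi * x1 ≤ 0.2 := by nlinarith
  have ha0 : 0 ≤ 2 * Real.pi * x1 := by positivity
  have hc := Real.one_sub_sq_div_two_le_cos (x := 2 * Real.pi * x1)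
  have h2 : (2 * Real.pi * x1) ^ 2 ≤ 0.04 := by nlinarith
  rw [le_div_iff₀ hpi]
  linarith

theorem selection {S S' : ℝ → ℝ} (hS : ∀ x, HasDerivAt S (S' x) x) {K : ℝ}
    (hK : ∀ x, |S' x| ≤ K) (hsin : ∀ x ∈ Icc (0:ℝ) (1/2), Real.sin (2 * Real.pi * x) ≤ S x)
    (hS2 : ∀ x, |S x| ≤ 2) (hhalf : S (1/2) = 0) {x1 : ℝ} (hx1 : 0 < x1) (hx1' : x1 ≤ 1/32)
    (hsym : ∀ s ∈ Icc 0 x1, S s ≤ S (1/2 - s)) (hlt : S x1 < S (1/2 - x1)) :
    ∃ ε0 > 0, ∀ ε, 0 < ε → ε < ε0 → ∀ c v, IsSol (fun x => S x ^ 2) ε c v →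
      deriv v 0 = 0 → deriv v (1/2) = 0 → c ≤ 0 → -(4 * Real.pi * ε) ≤ c →
      (∀ x, |deriv v x| ≤ 2) → (∀ x y, |v x - v y| ≤ 2 * |x - y|) →
      1/10 < v (1/2) - v 0 := by
  have hpi := Real.pi_pos
  have hK0 : 0 ≤ K := (abs_nonneg _).trans (hK 0)
  have hSc : Continuous S := by
    have : Differentiable ℝ S := fun x => (hS x).differentiableAt
    exact this.continuous
  have hSnn : ∀ x ∈ Icc (0:ℝ) (1/2), 0 ≤ S x := by
    intro x hx
    refine le_trans ?_ (hsin x hx)
    apply Real.sin_nonneg_of_nonneg_of_le_pi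
    · have := hx.1; positivity
    · have := hx.2; nlinarith
  -- the gap function
  set g : ℝ → ℝ := fun s => S (1/2 - s) ^ 2 - S s ^ 2 with hg
  have hgc : Continuous g := by
    apply Continuous.sub
    · exact (hSc.comp (continuous_const.sub continuous_id)).pow 2
    · exact hSc.pow 2
  have hg0 : ∀ s ∈ Icc 0 x1, 0 ≤ g s := by
    intro s hs
    have a := hsym s hs
    have b := hSnn s ⟨hs.1, by linarith [hs.2]⟩
    simp only [hg]
    nlinarith
  have hg1 : 0 < g x1 := by
    have b := hSnn x1 ⟨hx1.le, by linarith⟩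
    simp only [hg]
    nlinarith
  set η : ℝ := g x1 / 2 with hη
  have hηpos : 0 < η := by positivity
  obtain ⟨xa, hxa0, hxa1, hxa⟩ : ∃ xa, 0 < xa ∧ xa < x1 ∧ ∀ s ∈ Icc xa x1, η ≤ g s := by
    have hev : ∀ᶠ s in 𝓝 x1, η < g s := by
      apply hgc.continuousAt.eventually_const_lt
      rw [hη]; linarith
    obtain ⟨δ, hδ, hball⟩ := Metric.eventually_nhds_iff.mp hev
    refine ⟨max (x1 / 2) (x1 - δ / 2), by positivity, ?_, ?_⟩
    · apply max_lt <;> linarith
    · intro s hs
      have h1 : x1 - δ / 2 ≤ s := (le_max_right _ _).trans hs.1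
      apply (hball _).le
      rw [Real.dist_eq, abs_lt]
      constructor <;> linarith [hs.2]
  -- d
  set d : ℝ := min (η / 8) (4 * x1) with hd
  have hdpos : 0 < d := by rw [hd]; positivity
  have hd1 : d ≤ η / 8 := min_le_left _ _
  have hd2 : d ≤ 4 * x1 := min_le_right _ _
  have hd3 : d ≤ 1 := by linarith
  have hKp : 0 < K + 13 := by linarith
  have hlog : 0 < Real.log 4 - Real.log (d / 2) + 1 := by
    have : Real.log (d / 2) ≤ 0 := Real.log_nonpos (by positivity) (by linarith)
    have : 0 ≤ Real.log 4 := Real.log_nonneg (by norm_num)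
    linarith
  refine ⟨min (min (4 * (x1 - xa)) (d ^ 2 / (4 * (K + 13))))
    (min (0.04 / (Real.log 4 - Real.log (d / 2) + 1)) (0.04 * d / (K + 13))), ?_, ?_⟩
  · have : 0 < x1 - xa := by linarith
    positivity
  intro ε hε hε0 c v h hd0 hdh hc0 hcl hv2 hvl
  have e1 : ε < 4 * (x1 - xa) := hε0.trans_le ((min_le_left _ _).trans (min_le_left _ _))
  have e2 : ε < d ^ 2 / (4 * (K + 13)) := hε0.trans_le ((min_le_left _ _).trans (min_le_right _ _))
  have e3 : ε < 0.04 / (Real.log 4 - Real.log (d / 2) + 1) :=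
    hε0.trans_le ((min_le_right _ _).trans (min_le_left _ _))
  have e4 : ε < 0.04 * d / (K + 13) := hε0.trans_le ((min_le_right _ _).trans (min_le_right _ _))
  rw [lt_div_iff₀ (by positivity)] at e2 e3 e4
  have h4pi : 4 * Real.pi < 13 := by linarith [Real.pi_lt_d2]
  -- Step 1: D
  set D : ℝ → ℝ := fun s => deriv v s + deriv v (1/2 - s) with hD
  have href : ∀ s : ℝ, HasDerivAt (fun s : ℝ => 1/2 - s) (-1) s := by
    intro s
    exact (hasDerivAt_id s).const_sub (1/2)
  have hDd : ∀ s, HasDerivAt D (((deriv v s - deriv v (1/2 - s)) * D s + g s) / ε) s := by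
    intro s
    have a1 := h.hasDeriv' hε s
    have a2 := (h.hasDeriv' hε (1/2 - s)).comp s (href s)
    refine (a1.add a2).congr_deriv ?_
    simp only [hD, hg]
    field_simp
    ring
  have hDnn : ∀ s ∈ Icc 0 x1, 0 ≤ D s := by
    set M : ℝ → ℝ := fun s => D s * Real.exp (-(v s + v (1/2 - s)) / ε) with hM
    have hMd : ∀ s, HasDerivAt M (Real.exp (-(v s + v (1/2 - s)) / ε) * (g s / ε)) s := by
      intro s
      have a1 := hDd s
      have a2 := (((h.hasDeriv s).add ((h.hasDeriv (1/2 - s)).comp s (href s))).neg.div_const ε).exp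
      refine (a1.mul a2).congr_deriv ?_
      simp only [Pi.add_apply, Pi.neg_apply, Function.comp_apply]
      field_simp
      ring
    have hmono : MonotoneOn M (Icc 0 x1) := by
      apply monotoneOn_of_deriv_nonneg (convex_Icc _ _)
      · exact fun s _ => (hMd s).continuousAt.continuousWithinAt
      · exact fun s _ => (hMd s).differentiableAt.differentiableWithinAt
      · intro s hs
        rw [interior_Icc] at hs
        rw [(hMd s).deriv]
        have := hg0 s ⟨hs.1.le, hs.2.le⟩
        positivity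
    intro s hs
    have hM0 : M 0 = 0 := by
      simp only [hM, hD, hd0, sub_zero, hdh, add_zero, zero_mul]
    have := hmono (left_mem_Icc.mpr hx1.le) hs hs.1
    rw [hM0] at this
    exact nonneg_of_mul_nonneg_left this (Real.exp_pos _)
  -- Step 2
  have hDx1 : d ≤ D x1 := by
    set Q : ℝ → ℝ := fun s => Real.exp (4 * s / ε) * (D s - η / 4) with hQ
    have hQd : ∀ s, HasDerivAt Q (Real.exp (4 * s / ε) *
        (((4 + (deriv v s - deriv v (1/2 - s))) * D s + (g s - η)) / ε)) s := by
      intro s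
      have a1 := (hDd s).sub_const (η / 4)
      have a2 := (((hasDerivAt_id s).const_mul 4).div_const ε).exp
      refine (a2.mul a1).congr_deriv ?_
      simp only [id]
      field_simp
      ring
    have hmono : MonotoneOn Q (Icc xa x1) := by
      apply monotoneOn_of_deriv_nonneg (convex_Icc _ _)
      · exact fun s _ => (hQd s).continuousAt.continuousWithinAt
      · exact fun s _ => (hQd s).differentiableAt.differentiableWithinAt
      · intro s hs
        rw [interior_Icc] at hs
        rw [(hQd s).deriv]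
        have b1 := hxa s ⟨hs.1.le, hs.2.le⟩
        have b2 := hDnn s ⟨by linarith [hs.1], hs.2.le⟩
        have b3 := abs_le.mp (hv2 s)
        have b4 := abs_le.mp (hv2 (1/2 - s))
        have b5 : 0 ≤ 4 + (deriv v s - deriv v (1/2 - s)) := by linarith [b3.1, b4.2]
        have b6 : 0 ≤ g s - η := by linarith
        positivity
    have hq := hmono (left_mem_Icc.mpr hxa1.le) (right_mem_Icc.mpr hxa1.le) hxa1.le
    simp only [hQ] at hq
    have b2 := hDnn xa ⟨hxa0.le, hxa1.le⟩
    have hexp : Real.exp (4 * x1 / ε) = Real.exp (4 * xa / ε) * Real.exp (4 * (x1 - xa) / ε) := by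
      rw [← Real.exp_add]; congr 1; ring
    have hge : 2 ≤ Real.exp (4 * (x1 - xa) / ε) := by
      have : 1 ≤ 4 * (x1 - xa) / ε := by rw [le_div_iff₀ hε]; linarith
      have h3 := Real.add_one_le_exp (4 * (x1 - xa) / ε)
      linarith
    rw [hexp, mul_assoc] at hq
    have hq2 := le_of_mul_le_mul_left hq (Real.exp_pos _)
    by_contra hcon
    push Not at hcon
    have : D x1 - η / 4 < - (η / 8) := by linarith
    nlinarith
  -- Step 3
  by_cases hcase : d / 2 ≤ deriv v x1 - S x1
  · exfalso
    have key := image_le_of_deriv_right_lt_deriv_boundary' (f := fun _ => d / 2) (f' := fun _ => 0)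
      (a := x1) (b := 1/2) continuousOn_const (fun x _ => hasDerivWithinAt_const _ _ _)
      (B := fun x => deriv v x - S x) (B' := fun x => ((deriv v x) ^ 2 - S x ^ 2 - c) / ε - S' x)
      hcase (h.cont'.sub hSc).continuousOn
      (fun x _ => ((h.hasDeriv' hε x).sub (hS x)).hasDerivWithinAt) (by
        intro x hx heq
        have b1 := hSnn x ⟨by linarith [hx.1], hx.2.le⟩
        have b2 := (abs_le.mp (hK x)).2
        have b3 : deriv v x = S x + d / 2 := by linarith
        rw [b3, sub_pos, lt_div_iff₀ hε]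
        have : S' x * ε ≤ K * ε := mul_le_mul_of_nonneg_right b2 hε.le
        nlinarith)
    have := key (right_mem_Icc.mpr (by linarith : x1 ≤ 1/2))
    simp only [hdh, hhalf] at this
    linarith
  push Not at hcase
  -- Step 4
  have hSpos : ∀ x ∈ Icc x1 (1/2 - x1), d ≤ S x := by
    intro x hx
    have m : x ∈ Icc (0:ℝ) (1/2) := ⟨by linarith [hx.1], by linarith [hx.2]⟩
    refine le_trans ?_ (hsin x m)
    -- sin(2 pi x) >= 4 min(x, 1/2 - x)
    have q : ∀ y ∈ Icc (0:ℝ) (1/4), 4 * y ≤ Real.sin (2 * Real.pi * y) := by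
      intro y hy
      have := Real.mul_le_sin (x := 2 * Real.pi * y) (by have := hy.1; positivity)
        (by have := hy.2; nlinarith)
      calc 4 * y = 2 / Real.pi * (2 * Real.pi * y) := by field_simp; ring
        _ ≤ _ := this
    rcases le_total x (1/4) with h4 | h4
    · have := q x ⟨m.1, h4⟩
      linarith [hx.1]
    · have := q (1/2 - x) ⟨by linarith [m.2], by linarith⟩
      have e : 2 * Real.pi * (1/2 - x) = Real.pi - 2 * Real.pi * x := by ring
      rw [e, Real.sin_pi_sub] at this
      linarith [hx.2]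
  have ha : ∀ x ∈ Icc x1 (1/2 - x1), d / 2 ≤ S x + deriv v x := by
    set b : ℝ → ℝ := fun s => S (1/2 - s) + deriv v (1/2 - s) with hb
    have hbd : ∀ s, HasDerivAt b
        (- (S' (1/2 - s) + ((deriv v (1/2 - s)) ^ 2 - S (1/2 - s) ^ 2 - c) / ε)) s := by
      intro s
      have a1 : HasDerivAt (fun s => S (1/2 - s)) (S' (1/2 - s) * -1) s :=
        (hS (1/2 - s)).comp s (href s)
      have a2 : HasDerivAt (fun s => deriv v (1/2 - s))
          (((deriv v (1/2 - s)) ^ 2 - S (1/2 - s) ^ 2 - c) / ε * -1) s :=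
        (h.hasDeriv' hε (1/2 - s)).comp s (href s)
      refine (a1.add a2).congr_deriv ?_
      ring
    have hbx : d / 2 ≤ b x1 := by
      have := hsym x1 ⟨hx1.le, le_rfl⟩
      simp only [hD] at hDx1
      simp only [hb]
      linarith
    have hbc : ContinuousOn b (Icc x1 (1/2 - x1)) :=
      fun s _ => (hbd s).continuousAt.continuousWithinAt
    have key := image_le_of_deriv_right_lt_deriv_boundary' (f := fun _ => d / 2) (f' := fun _ => 0)
      (a := x1) (b := 1/2 - x1) continuousOn_const (fun x _ => hasDerivWithinAt_const _ _ _)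
      (B := b)
      (B' := fun s => - (S' (1/2 - s) + ((deriv v (1/2 - s)) ^ 2 - S (1/2 - s) ^ 2 - c) / ε))
      hbx hbc
      (fun s _ => (hbd s).hasDerivWithinAt) (by
        intro s hs heq
        have b1 := hSpos (1/2 - s) ⟨by linarith [hs.2], by linarith [hs.1]⟩
        have b2 := (abs_le.mp (hK (1/2 - s))).2
        have b3 : deriv v (1/2 - s) = d / 2 - S (1/2 - s) := by
          simp only [hb] at heq
          linarith
        rw [b3]
        have : ((d / 2 - S (1/2 - s)) ^ 2 - S (1/2 - s) ^ 2 - c) / ε < - K := by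
          rw [div_lt_iff₀ hε]
          have q1 : (d / 2 - S (1/2 - s)) ^ 2 - S (1/2 - s) ^ 2 = (d / 2) * (d / 2 - 2 * S (1/2 - s)) := by ring
          rw [q1]
          nlinarith
        linarith)
    intro x hx
    have := key (x := 1/2 - x) ⟨by linarith [hx.2], by linarith [hx.1]⟩
    have e : (1/2 - (1/2 - x) : ℝ) = x := by ring
    simp only [hb, e] at this
    exact this
  -- Step 5
  set a : ℝ → ℝ := fun x => S x + deriv v x with ha_def
  have had : ∀ x, HasDerivAt a (S' x + ((deriv v x) ^ 2 - S x ^ 2 - c) / ε) x :=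
    fun x => (hS x).add (h.hasDeriv' hε x)
  set L : ℝ := 2 / d * ((13 + K) * ε) with hL
  set W : ℝ → ℝ := fun x => v x + Real.cos (2 * Real.pi * x) / (2 * Real.pi)
    - ε * Real.log (a x) + L * x with hW
  have hin : ∀ x : ℝ, HasDerivAt (fun x : ℝ => 2 * Real.pi * x) (2 * Real.pi) x := by
    intro x; simpa using (hasDerivAt_id x).const_mul (2 * Real.pi)
  have hWd : ∀ x ∈ Icc x1 (1/2 - x1), HasDerivAt W
      (deriv v x + (- Real.sin (2 * Real.pi * x) * (2 * Real.pi)) / (2 * Real.pi)
        - ε * ((S' x + ((deriv v x) ^ 2 - S x ^ 2 - c) / ε) / a x) + L * 1) x := by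
    intro x hx
    have hax : a x ≠ 0 := by
      have := ha x hx
      have : 0 < a x := by simp only [ha_def]; linarith
      exact this.ne'
    exact (((h.hasDeriv x).add (((Real.hasDerivAt_cos (2 * Real.pi * x)).comp x (hin x)).div_const
      (2 * Real.pi))).sub (((had x).log hax).const_mul ε)).add ((hasDerivAt_id x).const_mul L)
  have hx12 : x1 ≤ 1/2 - x1 := by linarith
  have hmono : MonotoneOn W (Icc x1 (1/2 - x1)) := by
    apply monotoneOn_of_deriv_nonneg (convex_Icc _ _)
    · exact fun s hs => (hWd s hs).continuousAt.continuousWithinAt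
    · intro s hs
      rw [interior_Icc] at hs
      exact (hWd s ⟨hs.1.le, hs.2.le⟩).differentiableAt.differentiableWithinAt
    · intro s hs
      rw [interior_Icc] at hs
      have hs' : s ∈ Icc x1 (1/2 - x1) := ⟨hs.1.le, hs.2.le⟩
      rw [(hWd s hs').deriv]
      have q1 := ha s hs'
      have q2 : 0 < a s := by simp only [ha_def]; linarith
      have q3 := hsin s ⟨by linarith [hs.1], by linarith [hs.2]⟩
      have q4 := (abs_le.mp (hK s)).2
      have q5 : ε * ((S' s + ((deriv v s) ^ 2 - S s ^ 2 - c) / ε) / a s) =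
          (deriv v s - S s) + (ε * S' s - c) / a s := by
        have : a s ≠ 0 := q2.ne'
        have e5 : a s = S s + deriv v s := rfl
        field_simp
        rw [e5]
        ring
      have q6 : (ε * S' s - c) / a s ≤ L := by
        rw [div_le_iff₀ q2, hL]
        have q7 : ε * S' s - c ≤ (13 + K) * ε := by nlinarith
        have q8 : (13 + K) * ε ≤ 2 / d * ((13 + K) * ε) * a s := by
          have q9 : 1 ≤ 2 / d * a s := by
            rw [div_mul_eq_mul_div, le_div_iff₀ hdpos]
            have : a s = S s + deriv v s := rfl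
            linarith
          have q10 : 0 ≤ (13 + K) * ε := by positivity
          nlinarith
        linarith
      rw [q5]
      have q11 : (- Real.sin (2 * Real.pi * s) * (2 * Real.pi)) / (2 * Real.pi) =
        - Real.sin (2 * Real.pi * s) := by field_simp
      rw [q11]
      linarith
  have hfin := hmono (left_mem_Icc.mpr hx12) (right_mem_Icc.mpr hx12) hx12
  simp only [hW] at hfin
  have c1 : Real.cos (2 * Real.pi * (1/2 - x1)) = - Real.cos (2 * Real.pi * x1) := by
    have e : 2 * Real.pi * (1/2 - x1) = Real.pi - 2 * Real.pi * x1 := by ring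
    rw [e, Real.cos_pi_sub]
  rw [c1] at hfin
  have l1 : Real.log (d / 2) ≤ Real.log (a (1/2 - x1)) :=
    Real.log_le_log (by positivity) (ha _ (right_mem_Icc.mpr hx12))
  have l2 : Real.log (a x1) ≤ Real.log 4 := by
    apply Real.log_le_log
    · have := ha _ (left_mem_Icc.mpr hx12)
      have : 0 < a x1 := by simp only [ha_def]; linarith
      exact this
    · have b1 := (abs_le.mp (hS2 x1)).2
      have b2 := (abs_le.mp (hv2 x1)).2
      simp only [ha_def]; linarith
  have nb := numeric_bound hx1 hx1'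
  have v1 := hvl x1 0
  have v2 := hvl (1/2) (1/2 - x1)
  rw [sub_zero, abs_of_pos hx1] at v1
  have e5 : |1/2 - (1/2 - x1)| = x1 := by
    have : 1/2 - (1/2 - x1) = x1 := by ring
    rw [this, abs_of_pos hx1]
  rw [e5] at v2
  have v1' := (abs_le.mp v1).1
  have v2' := (abs_le.mp v2).1
  have hcosE : Real.cos (2 * Real.pi * x1) / (2 * Real.pi) - (-Real.cos (2 * Real.pi * x1)) / (2 * Real.pi)
      = Real.cos (2 * Real.pi * x1) / Real.pi := by field_simp; ring
  have hLs : L * (1/2 - x1) - L * x1 ≤ 0.04 := by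
    have : L * (1/2 - x1) - L * x1 ≤ L * (1/2) := by
      have : 0 ≤ L := by positivity
      nlinarith
    refine this.trans ?_
    rw [hL]
    have : 2 / d * ((13 + K) * ε) * (1/2) = (ε * (K + 13)) / d := by field_simp; ring
    rw [this, div_le_iff₀ hdpos]
    linarith
  have hlg : ε * (Real.log 4 - Real.log (d / 2)) ≤ 0.04 := by linarith
  have l3 : ε * Real.log (d / 2) ≤ ε * Real.log (a (1/2 - x1)) := mul_le_mul_of_nonneg_left l1 hε.le
  have l4 : ε * Real.log (a x1) ≤ ε * Real.log 4 := mul_le_mul_of_nonneg_left l2 hε.le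
  have hlg2 : ε * Real.log (a (1/2 - x1)) - ε * Real.log (a x1) ≥ - 0.04 := by linarith
  have x1b : x1 ≤ 1/32 := hx1'
  linarith

end Pool.Agent.LibCell
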