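import Pool.Agent.LibCell.Basic
set_option autoImplicit false
open Filter Topology Set

namespace Pool.Agent.LibCell

section
variable {V : ℝ → ℝ} {ε c : ℝ} {v : ℝ → ℝ}

/-- reflection about 1/4 -/
lemma IsSol.reflect (h : IsSol V ε c v) :
    IsSol (fun x => V (1/2 - x)) ε c (fun x => v (1/2 - x) - v (1/2)) := by
  have d1 : deriv (fun x => v (1/2 - x) - v (1/2)) = fun x => - deriv v (1/2 - x) := by
    ext x
    rw [deriv_sub_const, deriv_comp_const_sub]
  refine ⟨(h.smooth.comp (contDiff_const.sub contDiff_id)).sub contDiff_const, fun x => ?_,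
    fun x => ?_⟩
  · have := h.per (1/2 - x - 1)
    have e : (1/2 - x - 1 + 1 : ℝ) = 1/2 - x := by ring
    rw [e] at this
    have e2 : (1/2 - (x + 1) : ℝ) = 1/2 - x - 1 := by ring
    rw [e2, this]
  · rw [d1]
    have d2 : deriv (fun x => - deriv v (1/2 - x)) x = deriv (deriv v) (1/2 - x) := by
      have : deriv (fun x => - deriv v (1/2 - x)) x = - deriv (fun x => deriv v (1/2 - x)) x :=
        deriv.fun_neg
      rw [this, deriv_comp_const_sub, neg_neg]
    rw [d2]
    have := h.eqn (1/2 - x)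
    simpa using this

lemma IsSol.sub_le (h : IsSol V ε c v) (hε : 0 < ε) (hV0 : ∀ x, 0 ≤ V x)
    (hV : ∀ x, V x ≤ 4) (x y : ℝ) : |v x - v y| ≤ 2 * |x - y| := by
  have := Convex.norm_image_sub_le_of_norm_deriv_le (f := v) (s := univ) (C := 2)
    (fun x _ => h.diff x) (fun x _ => by
      rw [Real.norm_eq_abs]; exact h.deriv_le hε hV0 hV x) convex_univ (mem_univ y) (mem_univ x)
  simpa using this

/-- quantitative continuity in the potential -/
lemma IsSol.stab {V' : ℝ → ℝ} {c' : ℝ} {v' : ℝ → ℝ} (h : IsSol V ε c v)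
    (h' : IsSol V' ε c' v') (hε : 0 < ε) (hV0 : ∀ x, 0 ≤ V x) (hV : ∀ x, V x ≤ 4)
    (hV0' : ∀ x, 0 ≤ V' x) (hV' : ∀ x, V' x ≤ 4)
    (he : ∀ x, V (-x) = V x) (he' : ∀ x, V' (-x) = V' x) (h0 : v 0 = 0) (h0' : v' 0 = 0)
    {τ : ℝ} (hτ : ∀ x, |V x - V' x| ≤ τ) :
    |v (1/2) - v' (1/2)| ≤ (2 * τ / ε * Real.exp (4 / ε)) := by
  have hτ0 : 0 ≤ τ := (abs_nonneg _).trans (hτ 0)
  have hcc : |c' - c| ≤ τ := by
    rw [abs_le]
    constructor
    · have := h'.compare h hε (τ := τ) (fun x => by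
        have := (abs_le.mp (hτ x)).1; linarith)
      linarith
    · exact h.compare h' hε (τ := τ) (fun x => (abs_le.mp (hτ x)).2)
  have d0 := h.deriv_zero hε he
  have d0' := h'.deriv_zero hε he'
  set N : ℝ → ℝ := fun x => (deriv v x - deriv v' x) * Real.exp (-(v x + v' x) / ε) with hN
  have hNd : ∀ x, HasDerivAt N (Real.exp (-(v x + v' x) / ε) *
      ((-(V x - V' x) + (c' - c)) / ε)) x := by
    intro x
    have a1 := (h.hasDeriv' hε x).sub (h'.hasDeriv' hε x)
    have a2 := (((h.hasDeriv x).add (h'.hasDeriv x)).neg.div_const ε).exp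
    have a3 := a1.mul a2
    refine a3.congr_deriv ?_
    simp only [Pi.add_apply, Pi.neg_apply, Pi.sub_apply]
    field_simp
    ring
  have vb : ∀ x ∈ Icc (0:ℝ) (1/2), |v x + v' x| ≤ 2 := by
    intro x hx
    have a := h.sub_le hε hV0 hV x 0
    have b := h'.sub_le hε hV0' hV' x 0
    rw [h0, sub_zero, sub_zero, abs_of_nonneg hx.1] at a
    rw [h0', sub_zero, sub_zero, abs_of_nonneg hx.1] at b
    calc |v x + v' x| ≤ |v x| + |v' x| := abs_add_le _ _
      _ ≤ 2 := by linarith [hx.2]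
  have eb : ∀ x ∈ Icc (0:ℝ) (1/2), Real.exp (-(v x + v' x) / ε) ≤ Real.exp (2 / ε) := by
    intro x hx
    apply Real.exp_le_exp.mpr
    apply div_le_div_of_nonneg_right _ hε.le
    have := (abs_le.mp (vb x hx)).1
    linarith
  have eb' : ∀ x ∈ Icc (0:ℝ) (1/2), Real.exp ((v x + v' x) / ε) ≤ Real.exp (2 / ε) := by
    intro x hx
    apply Real.exp_le_exp.mpr
    apply div_le_div_of_nonneg_right _ hε.le
    exact (abs_le.mp (vb x hx)).2
  have hNb : ∀ x ∈ Icc (0:ℝ) (1/2), |N x| ≤ (2 * τ / ε * Real.exp (2 / ε)) * (1/2) := by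
    intro x hx
    have key := Convex.norm_image_sub_le_of_norm_hasDerivWithin_le (f := N)
      (f' := fun x => Real.exp (-(v x + v' x) / ε) * ((-(V x - V' x) + (c' - c)) / ε))
      (s := Icc (0:ℝ) (1/2)) (C := 2 * τ / ε * Real.exp (2 / ε))
      (fun x _ => (hNd x).hasDerivWithinAt) (fun y hy => by
        rw [norm_mul, Real.norm_eq_abs, Real.norm_eq_abs, abs_of_pos (Real.exp_pos _), abs_div,
          abs_of_pos hε]
        have g1 := eb y hy
        have g2 : |(-(V y - V' y) + (c' - c))| ≤ 2 * τ := by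
          calc _ ≤ |(-(V y - V' y))| + |c' - c| := abs_add_le _ _
            _ ≤ τ + τ := by rw [abs_neg]; exact add_le_add (hτ y) hcc
            _ = 2 * τ := by ring
        calc Real.exp (-(v y + v' y) / ε) * (|(-(V y - V' y) + (c' - c))| / ε)
            ≤ Real.exp (2 / ε) * (2 * τ / ε) := by
              apply mul_le_mul g1 _ (by positivity) (by positivity)
              exact div_le_div_of_nonneg_right g2 hε.le
          _ = _ := by ring) (convex_Icc _ _) (left_mem_Icc.mpr (by norm_num)) hx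
    have hN0 : N 0 = 0 := by simp [hN, d0, d0']
    rw [hN0, sub_zero, sub_zero, Real.norm_eq_abs, Real.norm_eq_abs, abs_of_nonneg hx.1] at key
    refine key.trans ?_
    apply mul_le_mul_of_nonneg_left hx.2 (by positivity)
  have hq : ∀ x ∈ Icc (0:ℝ) (1/2), |deriv v x - deriv v' x| ≤ τ / ε * Real.exp (4 / ε) := by
    intro x hx
    have e1 : deriv v x - deriv v' x = N x * Real.exp ((v x + v' x) / ε) := by
      simp only [hN]
      rw [mul_assoc, ← Real.exp_add]
      have : -(v x + v' x) / ε + (v x + v' x) / ε = 0 := by ring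
      rw [this, Real.exp_zero, mul_one]
    rw [e1, abs_mul, abs_of_pos (Real.exp_pos _)]
    calc |N x| * Real.exp ((v x + v' x) / ε)
        ≤ ((2 * τ / ε * Real.exp (2 / ε)) * (1/2)) * Real.exp (2 / ε) :=
          mul_le_mul (hNb x hx) (eb' x hx) (by positivity) (by positivity)
      _ = τ / ε * (Real.exp (2 / ε) * Real.exp (2 / ε)) := by ring
      _ = τ / ε * Real.exp (4 / ε) := by
          rw [← Real.exp_add]; congr 2; ring
  have key := Convex.norm_image_sub_le_of_norm_hasDerivWithin_le (f := fun x => v x - v' x)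
      (f' := fun x => deriv v x - deriv v' x)
      (s := Icc (0:ℝ) (1/2)) (C := τ / ε * Real.exp (4 / ε))
      (fun x _ => ((h.hasDeriv x).sub (h'.hasDeriv x)).hasDerivWithinAt) (fun y hy => by
        rw [Real.norm_eq_abs]; exact hq y hy) (convex_Icc _ _)
        (left_mem_Icc.mpr (by norm_num)) (right_mem_Icc.mpr (by norm_num : (0:ℝ) ≤ 1/2))
  simp only [h0, h0', sub_zero, Real.norm_eq_abs] at key
  refine key.trans ?_
  rw [abs_of_nonneg (by norm_num : (0:ℝ) ≤ 1/2)]
  have : 0 ≤ τ / ε * Real.exp (4 / ε) := by positivity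
  have e : 2 * τ / ε * Real.exp (4 / ε) = 2 * (τ / ε * Real.exp (4 / ε)) := by ring
  rw [e]
  linarith

end

end Pool.Agent.LibCell
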