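import Pool.Agent.LibCell.Family
set_option autoImplicit false
set_option maxHeartbeats 1000000
open Filter Topology Set MeasureTheory
open scoped Laplacian InnerProductSpace

namespace Pool.Agent.LibCell

section nd
variable {m : ℕ}

abbrev EE (m : ℕ) : Type := EuclideanSpace ℝ (Fin (m+1))

noncomputable def ee (i : Fin (m+1)) : EE m := EuclideanSpace.single i (1:ℝ)

/-- integer translation vectors -/
noncomputable def lat (k : Fin (m+1) → ℤ) : EE m := WithLp.toLp 2 (fun i => (k i : ℝ))

lemma ee_eq_lat (i : Fin (m+1)) : (ee i : EE m) = lat (Pi.single i 1) := by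
  ext j
  by_cases h : j = i
  · subst h; simp [ee, lat]
  · simp [ee, lat, h]

lemma grad_apply (f : EE m → ℝ) (x : EE m) (i : Fin (m+1)) :
    (gradient f x) i = fderiv ℝ f x (ee i) := by
  have h1 : inner ℝ (gradient f x) (ee i) = fderiv ℝ f x (ee i) := by
    unfold gradient
    exact InnerProductSpace.toDual_symm_apply
  rw [← h1, ee, EuclideanSpace.inner_single_right]
  simp

lemma grad_norm_sq (f : EE m → ℝ) (x : EE m) :
    ‖gradient f x‖ ^ 2 = ∑ i, (fderiv ℝ f x (ee i)) ^ 2 := by
  rw [EuclideanSpace.norm_sq_eq]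
  apply Finset.sum_congr rfl
  intro i _
  rw [grad_apply, Real.norm_eq_abs, sq_abs]

lemma lapl_eq (f : EE m → ℝ) (x : EE m) :
    Δ f x = ∑ i, fderiv ℝ (fderiv ℝ f) x (ee i) (ee i) := by
  rw [InnerProductSpace.laplacian_eq_iteratedFDeriv_orthonormalBasis f
    (EuclideanSpace.basisFun (Fin (m+1)) ℝ)]
  simp only [iteratedFDeriv_two_apply]
  apply Finset.sum_congr rfl
  intro i _
  simp [ee]

/-- the coordinates map -/
noncomputable def toE (m : ℕ) : (Fin (m+1) → ℝ) →L[ℝ] EE m :=
  ((PiLp.continuousLinearEquiv 2 ℝ (fun _ : Fin (m+1) => ℝ)).symm : (Fin (m+1) → ℝ) →L[ℝ] EE m)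

lemma toE_apply (y : Fin (m+1) → ℝ) : toE m y = WithLp.toLp 2 y := rfl

lemma toE_single (i : Fin (m+1)) : toE m (Pi.single i 1) = ee i := by
  ext j
  by_cases h : j = i
  · subst h; simp [ee, toE_apply]
  · simp [ee, toE_apply, h]

lemma fderiv_integrand_cont {g : Fin (m+1) → EE m → ℝ} (hg : ∀ i, ContDiff ℝ 1 (g i)) :
    Continuous (fun x : EE m => ∑ i, fderiv ℝ (g i) x (ee i)) := by
  apply continuous_finsetSum
  intro i _
  exact ((hg i).continuous_fderiv one_ne_zero).clm_apply continuous_const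

lemma integral_div_zero {g : Fin (m+1) → EE m → ℝ} (hg : ∀ i, ContDiff ℝ 1 (g i))
    (hp : ∀ i x, g i (x + ee i) = g i x) (a : Fin (m+1) → ℝ) :
    ∫ y in Icc a (a + 1), ∑ i, fderiv ℝ (g i) (toE m y) (ee i) = 0 := by
  have h := integral_divergence_of_hasFDerivAt_off_countable' a (a + 1)
    (fun i => by simp) (fun i y => g i (toE m y))
    (fun i y => (fderiv ℝ (g i) (toE m y)).comp (toE m)) ∅ countable_empty
    (fun i => ((hg i).continuous.comp (toE m).continuous).continuousOn)
    (fun y _ i => by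
      have h1 := ((hg i).differentiable (by norm_num) (toE m y)).hasFDerivAt
      exact h1.comp y (toE m).hasFDerivAt)
    (by
      apply ContinuousOn.integrableOn_Icc
      apply Continuous.continuousOn
      have := (fderiv_integrand_cont hg).comp (toE m).continuous
      refine this.congr (fun y => ?_)
      simp only [Function.comp_apply, ContinuousLinearMap.comp_apply, toE_single])
  simp only [ContinuousLinearMap.comp_apply, toE_single] at h
  rw [h]
  apply Finset.sum_eq_zero
  intro i _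
  rw [sub_eq_zero]
  apply setIntegral_congr_fun measurableSet_Icc
  intro x _
  have e : (toE m (i.insertNth ((a + 1) i) x) : EE m) = toE m (i.insertNth (a i) x) + ee i := by
    rw [← toE_single, ← map_add]
    congr 1
    ext j
    rcases eq_or_ne j i with hj | hj
    · subst hj; simp
    · obtain ⟨k, rfl⟩ := Fin.exists_succAbove_eq hj
      simp
  simp only
  rw [e, hp]

/-- a nonnegative divergence of a periodic C1 field vanishes -/
lemma div_nonneg_zero {g : Fin (m+1) → EE m → ℝ} (hg : ∀ i, ContDiff ℝ 1 (g i))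
    (hp : ∀ i x, g i (x + ee i) = g i x)
    (hnn : ∀ x, 0 ≤ ∑ i, fderiv ℝ (g i) x (ee i)) (x : EE m) :
    ∑ i, fderiv ℝ (g i) x (ee i) = 0 := by
  set a : Fin (m+1) → ℝ := fun i => x i - 1/2 with ha
  have h := integral_div_zero hg hp a
  have hc : Continuous (fun y : Fin (m+1) → ℝ => ∑ i, fderiv ℝ (g i) (toE m y) (ee i)) :=
    (fderiv_integrand_cont hg).comp (toE m).continuous
  have hi : IntegrableOn (fun y : Fin (m+1) → ℝ => ∑ i, fderiv ℝ (g i) (toE m y) (ee i))
      (Icc a (a + 1)) := hc.continuousOn.integrableOn_Icc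
  have hae := (setIntegral_eq_zero_iff_of_nonneg_ae
    (Filter.Eventually.of_forall (fun y => hnn (toE m y))) hi).mp h
  have hopen : IsOpen (Set.pi univ (fun i => Ioo (a i) ((a + 1) i))) :=
    isOpen_set_pi finite_univ (fun i _ => isOpen_Ioo)
  have hsub : Set.pi univ (fun i => Ioo (a i) ((a + 1) i)) ⊆ Icc a (a + 1) := by
    intro y hy
    constructor
    · intro i; exact (hy i (mem_univ i)).1.le
    · intro i; exact (hy i (mem_univ i)).2.le
  have hae2 := ae_restrict_of_ae_restrict_of_subset hsub hae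
  have heq := Measure.eqOn_open_of_ae_eq hae2 hopen hc.continuousOn continuousOn_const
  have hx : (fun i => x i) ∈ Set.pi univ (fun i => Ioo (a i) ((a + 1) i)) := by
    intro i _
    simp only [ha, Pi.add_apply, Pi.one_apply]
    constructor <;> linarith
  have h3 := heq hx
  have e : toE m (fun i => x i) = x := rfl
  simp only [e, Pi.zero_apply] at h3
  exact h3

/-- normalised solution of the viscous cell problem at `P = 0` on the torus. -/
structure IsCellSol (H : EE m → EE m → ℝ) (ε c : ℝ) (v : EE m → ℝ) : Prop where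
  smooth : ContDiff ℝ 2 v
  periodic : ∀ (x : EE m) (k : Fin (m+1) → ℤ), v (x + lat k) = v x
  normalised : v 0 = 0
  eqn : ∀ x, H x (gradient v x) = ε * Δ v x + c

lemma lapl_nonpos_of_max {f : EE m → ℝ} (hf : ContDiff ℝ 2 f) {x0 : EE m}
    (h : ∀ x, f x ≤ f x0) : Δ f x0 ≤ 0 := by
  rw [lapl_eq]
  apply Finset.sum_nonpos
  intro i _
  -- one-dimensional slice
  set F : ℝ → ℝ := fun t => f (x0 + t • ee i) with hF
  have hline : ∀ t : ℝ, HasDerivAt (fun t : ℝ => x0 + t • (ee i : EE m)) (ee i) t := by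
    intro t
    have := ((hasDerivAt_id t).smul_const (ee i : EE m)).const_add x0
    simpa using this
  have hfd : Differentiable ℝ f := hf.differentiable (by norm_num)
  have hf1 : ContDiff ℝ 1 (fderiv ℝ f) := hf.fderiv_right (by norm_num)
  have hfd2 : Differentiable ℝ (fderiv ℝ f) := hf1.differentiable (by norm_num)
  have d1 : ∀ t, HasDerivAt F (fderiv ℝ f (x0 + t • ee i) (ee i)) t := fun t =>
    (hfd _).hasFDerivAt.comp_hasDerivAt t (hline t)
  have e1 : deriv F = fun t => fderiv ℝ f (x0 + t • ee i) (ee i) := funext fun t => (d1 t).deriv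
  have d2 : HasDerivAt (fun t : ℝ => fderiv ℝ f (x0 + t • ee i) (ee i))
      (fderiv ℝ (fderiv ℝ f) (x0 + (0:ℝ) • ee i) (ee i) (ee i)) 0 := by
    have h2 : HasDerivAt (fun t : ℝ => fderiv ℝ f (x0 + t • ee i))
        (fderiv ℝ (fderiv ℝ f) (x0 + (0:ℝ) • ee i) (ee i)) 0 :=
      (hfd2 (x0 + (0:ℝ) • ee i)).hasFDerivAt.comp_hasDerivAt (0:ℝ) (hline 0)
    have h3 := h2.clm_apply (hasDerivAt_const (0:ℝ) (ee i : EE m))
    simpa using h3
  have hmax : ∀ t, F t ≤ F 0 := fun t => by
    simp only [hF, zero_smul, add_zero]; exact h _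
  have hFc : Continuous F := by
    have : Differentiable ℝ F := fun t => (d1 t).differentiableAt
    exact this.continuous
  have := max_deriv2 hFc hmax
  rw [e1, d2.deriv, zero_smul, add_zero] at this
  exact this

lemma exists_max_nd {f : EE m → ℝ} (hf : Continuous f)
    (hp : ∀ (x : EE m) (k : Fin (m+1) → ℤ), f (x + lat k) = f x) : ∃ x0, ∀ x, f x ≤ f x0 := by
  have hK : IsCompact ((toE m) '' (Icc 0 1)) := isCompact_Icc.image (toE m).continuous
  obtain ⟨x0, -, hx0⟩ := hK.exists_isMaxOn ⟨_, mem_image_of_mem _ (left_mem_Icc.mpr zero_le_one)⟩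
    hf.continuousOn
  refine ⟨x0, fun x => ?_⟩
  rw [← hp x (fun i => -⌊x i⌋)]
  apply hx0
  refine ⟨fun i => Int.fract (x i), ⟨fun i => Int.fract_nonneg _, fun i => (Int.fract_lt_one _).le⟩, ?_⟩
  ext i
  simp [toE_apply, lat, Int.fract, sub_eq_add_neg]

section uniq
variable {W : EE m → ℝ} {ε c c' : ℝ} {v v' : EE m → ℝ}

/-- mechanical Hamiltonian -/
noncomputable def mech (W : EE m → ℝ) (x p : EE m) : ℝ := ‖p‖ ^ 2 - W x

lemma IsCellSol.compare_c (h : IsCellSol (mech W) ε c v) (h' : IsCellSol (mech W) ε c' v')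
    (hε : 0 < ε) : c' ≤ c := by
  obtain ⟨x0, hx0⟩ := exists_max_nd (f := fun x => v x - v' x)
    (h.smooth.continuous.sub h'.smooth.continuous) (fun x k => by rw [h.periodic, h'.periodic])
  have hfd : Differentiable ℝ v := h.smooth.differentiable (by norm_num)
  have hfd' : Differentiable ℝ v' := h'.smooth.differentiable (by norm_num)
  have hmax : IsLocalMax (fun x => v x - v' x) x0 := Filter.Eventually.of_forall hx0
  have h0 := hmax.fderiv_eq_zero
  rw [fderiv_fun_sub (hfd x0) (hfd' x0), sub_eq_zero] at h0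
  have hg : gradient v x0 = gradient v' x0 := by
    unfold gradient; rw [h0]
  have hl := lapl_nonpos_of_max (f := fun x => v x - v' x) (h.smooth.sub h'.smooth) hx0
  have hl2 : Δ (fun x => v x - v' x) x0 = Δ v x0 - Δ v' x0 :=
    h.smooth.contDiffAt.laplacian_sub h'.smooth.contDiffAt
  rw [hl2] at hl
  have q1 := h.eqn x0
  have q2 := h'.eqn x0
  unfold mech at q1 q2
  rw [hg] at q1
  nlinarith

theorem IsCellSol.uniq (h : IsCellSol (mech W) ε c v) (h' : IsCellSol (mech W) ε c' v')
    (hε : 0 < ε) : c = c' ∧ v = v' := by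
  have hc : c = c' := le_antisymm (h'.compare_c h hε) (h.compare_c h' hε)
  subst hc
  refine ⟨rfl, ?_⟩
  have hd : Differentiable ℝ v := h.smooth.differentiable (by norm_num)
  have hd' : Differentiable ℝ v' := h'.smooth.differentiable (by norm_num)
  set w : EE m → ℝ := fun x => v' x - v x with hw
  set μ : EE m → ℝ := fun x => Real.exp (-(v x + v' x) / ε) with hμ
  have hwC : ContDiff ℝ 2 w := h'.smooth.sub h.smooth
  have hμC : ContDiff ℝ 2 μ := ((h.smooth.add h'.smooth).neg.div_const ε).exp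
  have hw1 : ContDiff ℝ 1 (fderiv ℝ w) := hwC.fderiv_right (by norm_num)
  have hwd : Differentiable ℝ w := hwC.differentiable (by norm_num)
  have hμd : Differentiable ℝ μ := hμC.differentiable (by norm_num)
  have hwdd : Differentiable ℝ (fderiv ℝ w) := hw1.differentiable (by norm_num)
  set g : Fin (m+1) → EE m → ℝ := fun i x => w x * μ x * fderiv ℝ w x (ee i) with hg
  have hgC : ∀ i, ContDiff ℝ 1 (g i) := fun i =>
    ((hwC.of_le (by norm_num)).mul (hμC.of_le (by norm_num))).mul
      (hw1.clm_apply contDiff_const)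
  have hwp : ∀ x (k : Fin (m+1) → ℤ), w (x + lat k) = w x := fun x k => by
    simp only [hw]; rw [h.periodic, h'.periodic]
  have hμp : ∀ x (k : Fin (m+1) → ℤ), μ (x + lat k) = μ x := fun x k => by
    simp only [hμ]; rw [h.periodic, h'.periodic]
  have hgp : ∀ i x, g i (x + ee i) = g i x := by
    intro i x
    simp only [hg]
    rw [ee_eq_lat, hwp, hμp]
    congr 2
    have e : (fun y => w (y + lat (Pi.single i 1))) = w := funext fun y => hwp y _
    conv_rhs => rw [← e]
    rw [fderiv_comp_add_right]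
  have hμD : ∀ x i, fderiv ℝ μ x (ee i) =
      - (fderiv ℝ v x (ee i) + fderiv ℝ v' x (ee i)) / ε * μ x := by
    intro x i
    have h1 : HasFDerivAt (fun x => -(v x + v' x) / ε)
        (ε⁻¹ • (-(fderiv ℝ v x + fderiv ℝ v' x))) x := by
      have h2 := (((hd x).hasFDerivAt.add (hd' x).hasFDerivAt).neg).const_smul ε⁻¹
      refine h2.congr_of_eventuallyEq (Filter.Eventually.of_forall fun y => ?_)
      simp only [Pi.smul_apply, Pi.neg_apply, Pi.add_apply, smul_eq_mul]
      ring
    have h3 := h1.exp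
    rw [h3.fderiv]
    simp only [hμ, smul_apply, neg_apply, add_apply, smul_eq_mul]
    ring
  have hwD : ∀ x i, fderiv ℝ w x (ee i) = fderiv ℝ v' x (ee i) - fderiv ℝ v x (ee i) := by
    intro x i
    simp only [hw]
    rw [fderiv_fun_sub (hd' x) (hd x)]
    rfl
  have hgD : ∀ x i, fderiv ℝ (g i) x (ee i) = μ x * (fderiv ℝ w x (ee i)) ^ 2 +
      w x * (μ x * (fderiv ℝ (fderiv ℝ w) x (ee i) (ee i)
        - (fderiv ℝ v x (ee i) + fderiv ℝ v' x (ee i)) / ε * fderiv ℝ w x (ee i))) := by
    intro x i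
    have h1 : HasFDerivAt (fun y => fderiv ℝ w y (ee i))
        ((fderiv ℝ (fderiv ℝ w) x).flip (ee i)) x := by
      have := (hwdd x).hasFDerivAt.clm_apply (hasFDerivAt_const (ee i : EE m) x)
      simpa using this
    have h2 := ((hwd x).hasFDerivAt.mul (hμd x).hasFDerivAt).mul h1
    have h3 : fderiv ℝ (g i) x = _ := h2.fderiv
    rw [h3]
    simp only [add_apply, smul_apply, smul_eq_mul,
      ContinuousLinearMap.flip_apply, Pi.mul_apply]
    rw [hμD]
    ring
  have hlap : ∀ x, Δ w x = Δ v' x - Δ v x := fun x =>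
    h'.smooth.contDiffAt.laplacian_sub h.smooth.contDiffAt
  have hdiv : ∀ x, ∑ i, fderiv ℝ (g i) x (ee i) = μ x * ‖gradient w x‖ ^ 2 := by
    intro x
    simp_rw [hgD]
    rw [Finset.sum_add_distrib, ← Finset.mul_sum, ← grad_norm_sq, ← Finset.mul_sum,
      ← Finset.mul_sum, Finset.sum_sub_distrib, ← lapl_eq, hlap]
    have e1 : ∑ i, (fderiv ℝ v x (ee i) + fderiv ℝ v' x (ee i)) / ε * fderiv ℝ w x (ee i) =
        (‖gradient v' x‖ ^ 2 - ‖gradient v x‖ ^ 2) / ε := by
      rw [grad_norm_sq, grad_norm_sq, ← Finset.sum_sub_distrib, Finset.sum_div]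
      apply Finset.sum_congr rfl
      intro i _
      rw [hwD]
      ring
    rw [e1]
    have q1 := h.eqn x
    have q2 := h'.eqn x
    unfold mech at q1 q2
    have e2 : Δ v' x - Δ v x - (‖gradient v' x‖ ^ 2 - ‖gradient v x‖ ^ 2) / ε = 0 := by
      field_simp
      linarith
    rw [e2]
    ring
  have hzero : ∀ x, fderiv ℝ w x = 0 := by
    intro x
    have h1 := div_nonneg_zero hgC hgp (fun x => by
      rw [hdiv]
      have : 0 < μ x := Real.exp_pos _
      positivity) x
    rw [hdiv] at h1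
    have h2 : ‖gradient w x‖ ^ 2 = 0 := (mul_eq_zero.mp h1).resolve_left (Real.exp_ne_zero _)
    have h3 : gradient w x = 0 := by simpa using h2
    unfold gradient at h3
    simpa using h3
  have hconst := is_const_of_fderiv_eq_zero hwd hzero
  ext x
  have := hconst x 0
  simp only [hw, h.normalised, h'.normalised] at this
  linarith

end uniq

section lift
variable {V : ℝ → ℝ} {ε c : ℝ} {v : ℝ → ℝ}

noncomputable def c0 (m : ℕ) : EE m →L[ℝ] ℝ := EuclideanSpace.proj 0

lemma c0_apply (x : EE m) : c0 m x = x 0 := rfl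

lemma c0_ee (i : Fin (m+1)) : c0 m (ee i) = if i = 0 then 1 else 0 := by
  rw [c0_apply, ee]
  by_cases h : i = 0
  · subst h; simp
  · simp [h, Ne.symm h]

theorem IsSol.lift (h : IsSol V ε c v) (h0 : v 0 = 0) (m : ℕ) :
    IsCellSol (m := m) (mech (fun x => V (x 0))) ε c (fun x => v (x 0)) := by
  have hD : ∀ x : EE m, HasFDerivAt (fun x : EE m => v (x 0)) (deriv v (x 0) • c0 m) x := by
    intro x
    exact (h.hasDeriv (x 0)).comp_hasFDerivAt x (c0 m).hasFDerivAt
  have hf : fderiv ℝ (fun x : EE m => v (x 0)) = fun x => deriv v (x 0) • c0 m :=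
    funext fun x => (hD x).fderiv
  have hD2 : ∀ x : EE m, HasFDerivAt (fun x : EE m => deriv v (x 0) • c0 m)
      ((deriv (deriv v) (x 0) • c0 m).smulRight (c0 m)) x := by
    intro x
    have hdd : HasDerivAt (deriv v) (deriv (deriv v) (x 0)) (x 0) := (h.diff' (x 0)).hasDerivAt
    have h1 : HasFDerivAt (deriv v ∘ (c0 m)) (deriv (deriv v) (x 0) • c0 m) x :=
      hdd.comp_hasFDerivAt x (c0 m).hasFDerivAt
    exact h1.smul_const (c0 m)
  refine ⟨h.smooth.comp (c0 m).contDiff, fun x k => ?_, by simpa using h0, fun x => ?_⟩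
  · have hp : Function.Periodic v 1 := h.per
    have e : (x + lat k : EE m) 0 = x 0 + k 0 := by simp [lat]
    rw [e]
    have := hp.int_mul (k 0) (x 0)
    rwa [mul_one] at this
  · unfold mech
    rw [grad_norm_sq, lapl_eq, hf]
    have e1 : ∑ i, ((deriv v (x 0) • c0 m) (ee i)) ^ 2 = deriv v (x 0) ^ 2 := by
      simp [c0_ee]
    have e2 : ∑ i, fderiv ℝ (fun x : EE m => deriv v (x 0) • c0 m) x (ee i) (ee i) =
        deriv (deriv v) (x 0) := by
      rw [(hD2 x).fderiv]
      simp only [ContinuousLinearMap.smulRight_apply, FunLike.coe_smul, Pi.smul_apply,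
        c0_ee, smul_eq_mul]
      rw [Finset.sum_eq_single (0 : Fin (m+1))]
      · simp
      · intro i _ hi; simp [hi]
      · simp
    rw [e1, e2]
    exact h.eqn (x 0)

end lift

end nd

end Pool.Agent.LibCell
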